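import Pool.Agent.Q38.UM.AHRb
import Pool.Agent.Q84.UM.DPM

set_option autoImplicit false

/-! Project UM6 (helper97), job AHR (helper38). -/

namespace Pool.Agent.Q38.UM

open Filter Topology MeasureTheory Complex
open Pool.Agent.Q97.UM

noncomputable section

lemma edge_small (ε : ℝ) (hε : 0 < ε) : ∀ᶠ T : ℝ in atTop,
    32 * Real.log T * T ^ (1 / 40 : ℝ) ≤ ε * T := by
  have h1 : ∀ᶠ T : ℝ in atTop, (256 / ε) ≤ T ^ (1 / 4 : ℝ) :=
    (tendsto_rpow_atTop (by norm_num : (0 : ℝ) < 1 / 4)).eventually_ge_atTop _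
  filter_upwards [h1, eventually_ge_atTop 1] with T h hT
  have hT0 : 0 < T := by linarith
  have h2 : Real.log T ≤ 4 * T ^ (1 / 4 : ℝ) := by
    have := Real.log_le_rpow_div (x := T) (ε := 1 / 4) hT0.le (by norm_num)
    linarith
  have h3 : T ^ (1 / 40 : ℝ) ≤ T ^ (1 / 4 : ℝ) := Real.rpow_le_rpow_of_exponent_le hT (by norm_num)
  have h4 : T ^ (1 / 4 : ℝ) * T ^ (1 / 4 : ℝ) * T ^ (1 / 4 : ℝ) * T ^ (1 / 4 : ℝ) = T := by
    rw [← Real.rpow_add hT0, ← Real.rpow_add hT0, ← Real.rpow_add hT0]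
    norm_num
  obtain ⟨x, hx⟩ : ∃ x : ℝ, x = T ^ (1 / 4 : ℝ) := ⟨_, rfl⟩
  have hx1 : 1 ≤ x := by rw [hx]; exact Real.one_le_rpow hT (by norm_num)
  rw [← hx] at h h2 h3 h4
  rw [div_le_iff₀ hε] at h
  have h0 : 0 ≤ T ^ (1 / 40 : ℝ) := by positivity
  calc 32 * Real.log T * T ^ (1 / 40 : ℝ) ≤ 32 * (4 * x) * x := by gcongr
    _ = 128 * (x * x) := by ring
    _ ≤ (x * ε) * (x * x) := by
        have : 0 ≤ x * x := by positivity
        nlinarith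
    _ ≤ (x * ε) * (x * x) * x := le_mul_of_one_le_right (by positivity) hx1
    _ = ε * (x * x * x * x) := by ring
    _ = ε * T := by rw [h4]

lemma combine {S1 S0' S0 Sn Pk X W kp c σ ε ε₁ η C : ℝ} (hσ : |σ| = 1) (hη : 0 ≤ η)
    (hX0 : 0 ≤ X) (hXW : X ≤ W) (hε : 6 * ε₁ + η * (C + 1) ≤ ε)
    (h1 : |S1 - kp * X| ≤ ε₁ * W) (h2 : |S0 - X| ≤ ε₁ * W) (h3 : |S1 - -2 * σ * S0' - Sn| ≤ η * (C * W))
    (h4 : 0 ≤ S0 - S0') (h5 : S0 - S0' ≤ ε₁ * W) (h6 : 0 ≤ Pk - Sn) (h7 : Pk - Sn ≤ ε₁ * W)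
    (h8 : |kp - -2 * σ - c| ≤ η) : |Pk - c * X| ≤ ε * W := by
  have hW0 : 0 ≤ W := hX0.trans hXW
  have e : Pk - c * X = (Pk - Sn) + (-(S1 - -2 * σ * S0' - Sn)) + (S1 - kp * X) + 2 * σ * (S0' - X) +
      (kp - -2 * σ - c) * X := by ring
  have g1 : |Pk - Sn| ≤ ε₁ * W := by rw [abs_of_nonneg h6]; exact h7
  have g2 : |2 * σ * (S0' - X)| ≤ 4 * (ε₁ * W) := by
    rw [abs_mul, abs_mul, hσ, abs_of_pos (by norm_num : (0 : ℝ) < 2)]
    have : |S0' - X| ≤ 2 * (ε₁ * W) := by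
      rw [abs_le] at h2 ⊢
      constructor <;> linarith [h2.1, h2.2]
    linarith
  have g3 : |(kp - -2 * σ - c) * X| ≤ η * W := by
    rw [abs_mul, abs_of_nonneg hX0]
    exact mul_le_mul h8 hXW hX0 hη
  rw [e]
  have t1 := abs_add_le ((Pk - Sn) + (-(S1 - -2 * σ * S0' - Sn)) + (S1 - kp * X) + 2 * σ * (S0' - X))
    ((kp - -2 * σ - c) * X)
  have t2 := abs_add_le ((Pk - Sn) + (-(S1 - -2 * σ * S0' - Sn)) + (S1 - kp * X)) (2 * σ * (S0' - X))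
  have t3 := abs_add_le ((Pk - Sn) + (-(S1 - -2 * σ * S0' - Sn))) (S1 - kp * X)
  have t4 := abs_add_le (Pk - Sn) (-(S1 - -2 * σ * S0' - Sn))
  rw [abs_neg] at t4
  have t5 : (6 * ε₁ + η * (C + 1)) * W ≤ ε * W := mul_le_mul_of_nonneg_right hε hW0
  linarith

open Classical in
theorem one_j (hSPC : S_SPC) (hSAMP : S_SAMP)
    (hSS : ∃ θ δ C : ℝ, 0 < θ ∧ 0 < δ ∧ 0 ≤ C ∧ ∀ᶠ T : ℝ in atTop, ∀ N : ℕ, (N : ℝ) ≤ T ^ θ →
      ∀ b : ℕ → ℂ, ∑ s ∈ H370.Zf riemannZeta T (2 * T), (mz s : ℝ) * (SS δ T s.im ^ 2 * ‖dp N b s.im‖ ^ 2) ≤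
        C * Real.log T * (T * N2 N b))
    (hRH : RHz) (hAH : AHz) {j : ℕ} (hj : 1 ≤ j) {ε : ℝ} (hε : 0 < ε) :
    ∃ θ : ℝ, 0 < θ ∧ ∀ᶠ T : ℝ in atTop, ∀ N : ℕ, (N : ℝ) ≤ T ^ θ → ∀ b : ℕ → ℂ,
      |PK T N b j - (1 - 2 * (1 - (-1) ^ j) / (Real.pi ^ 2 * j ^ 2)) * (Real.log T / (2 * Real.pi)) * (T * N2 N b)| ≤
        ε * Real.log T * (T * N2 N b) := by
  obtain ⟨θ₃, δ, C, hθ3, hδ, hC, h3⟩ := hSS
  obtain ⟨η, hηd⟩ : ∃ η : ℝ, η = ε / (4 * (C + 1)) := ⟨_, rfl⟩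
  obtain ⟨ε₁, hε₁d⟩ : ∃ ε₁ : ℝ, ε₁ = ε / 24 := ⟨_, rfl⟩
  have hη : 0 < η := by rw [hηd]; positivity
  have hε₁ : 0 < ε₁ := by rw [hε₁d]; positivity
  obtain ⟨lam, hl1, hl2, hl3, hz⟩ := one_zero hAH hj hδ hη
  obtain ⟨M, hM⟩ := tst j hj
  obtain ⟨θ₁, hθ1, hθ1', h1⟩ := hSPC hRH (Rj j) (j * Real.pi) M lam ε₁ hM (by linarith) hl2 hε₁
  obtain ⟨θ₂, hθ2, hθ2', h2⟩ := hSAMP ε₁ hε₁
  refine ⟨min θ₁ (min θ₂ θ₃), lt_min hθ1 (lt_min hθ2 hθ3), ?_⟩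
  have hpi := Real.pi_pos
  have hpi3 := Real.pi_gt_three
  filter_upwards [h1, h2, h3, hz, sep hAH, count hAH, edge_small ε₁ hε₁, log_large 1,
    log_large ((j / 2 + 1 / 8) * (2 * Real.pi)), eventually_ge_atTop 16] with T g1 g2 g3 gz gs gc ge hL1 hLj hT16
    N hN b
  have hT1 : 1 ≤ T := by linarith
  have hT0 : 0 < T := by linarith
  obtain ⟨L, hL⟩ : ∃ L : ℝ, L = Real.log T := ⟨_, rfl⟩
  rw [← hL] at hL1 hLj ge ⊢
  have hL0 : 0 < L := by linarith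
  have hN1 : (N : ℝ) ≤ T ^ θ₁ := hN.trans (Real.rpow_le_rpow_of_exponent_le hT1 (min_le_left _ _))
  have hN2 : (N : ℝ) ≤ T ^ θ₂ := hN.trans (Real.rpow_le_rpow_of_exponent_le hT1
    ((min_le_right _ _).trans (min_le_left _ _)))
  have hN3 : (N : ℝ) ≤ T ^ θ₃ := hN.trans (Real.rpow_le_rpow_of_exponent_le hT1
    ((min_le_right _ _).trans (min_le_right _ _)))
  have hN40 : (N : ℝ) ≤ T ^ (1 / 40 : ℝ) := hN1.trans (Real.rpow_le_rpow_of_exponent_le hT1 hθ1')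
  obtain ⟨n2, hn2⟩ : ∃ n2 : ℝ, n2 = N2 N b := ⟨_, rfl⟩
  have hn20 : 0 ≤ n2 := by rw [hn2]; exact Pool.Agent.Q84.UM.N2_nonneg N b
  have hB : ∀ t : ℝ, ‖dp N b t‖ ^ 2 ≤ T ^ (1 / 40 : ℝ) * n2 := by
    intro t
    refine (Pool.Agent.Q84.UM.norm_dp_sq N b t).trans ?_
    rw [← hn2]
    gcongr
  have k1 := g1 N hN1 b
  have k2 := (g2 N hN2 b).2.2
  have k3 := g3 N hN3 b
  rw [← hL, ← hn2] at k1 k2 k3
  rw [← hn2]
  obtain ⟨Z, hZ⟩ : ∃ Z : Finset ℂ, Z = H370.Zf riemannZeta T (2 * T) := ⟨_, rfl⟩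
  have hsub : ZT T ⊆ Z := by rw [hZ]; exact ZT_sub_Zf hT1
  rw [← hZ] at gs k2 k3
  have hm : ∀ s ∈ Z, (mz s : ℝ) = 1 := fun s hs => by rw [(gs s hs).1, Nat.cast_one]
  -- the edge
  obtain ⟨E, hE⟩ : ∃ E : Finset ℂ, E = Z.filter (fun s => s.im ≤ T + 2 ∨ 2 * T - 2 ≤ s.im) := ⟨_, rfl⟩
  have hEZ : E ⊆ Z := by rw [hE]; exact Finset.filter_subset _ _
  have hcE : (E.card : ℝ) ≤ 8 * L := by
    have c1 := gc (T + 1)
    have c2 := gc (2 * T - 1)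
    rw [← hZ, ← hL] at c1 c2
    have c3 : E ⊆ Z.filter (fun s => |s.im - (T + 1)| ≤ 1) ∪ Z.filter (fun s => |s.im - (2 * T - 1)| ≤ 1) := by
      intro s hs
      rw [hE, Finset.mem_filter] at hs
      have hs2 := hs.1
      rw [hZ, mem_Zz hT1] at hs2
      rw [Finset.mem_union, Finset.mem_filter, Finset.mem_filter, abs_le, abs_le]
      rcases hs.2 with h | h
      · exact Or.inl ⟨hs.1, by linarith [hs2.2.2.1], by linarith⟩
      · exact Or.inr ⟨hs.1, by linarith, by linarith [hs2.2.2.2.1]⟩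
    have c4 := (Finset.card_le_card c3).trans (Finset.card_union_le _ _)
    have c5 : (E.card : ℝ) ≤ ((Z.filter (fun s => |s.im - (T + 1)| ≤ 1)).card : ℝ) +
        ((Z.filter (fun s => |s.im - (2 * T - 1)| ≤ 1)).card : ℝ) := by exact_mod_cast c4
    linarith
  have hcov : ∀ s ∈ Z, s ∉ E → s ∈ ZT T := by
    intro s hs hsE
    rw [hE, Finset.mem_filter, not_and_or, not_or, not_le, not_le] at hsE
    have hs2 := hs
    rw [hZ, mem_Zz hT1] at hs2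
    rcases hsE with h | h
    · exact absurd hs h
    · unfold ZT
      rw [mem_Zz (by linarith)]
      exact ⟨hs2.1, hs2.2.1, by linarith [h.1], by linarith [h.2], hs2.2.2.2.2⟩
  have hsplit : ∀ f g : ℂ → ℝ, (∀ s, 0 ≤ f s) → (∀ s, 0 ≤ g s) → (∀ s ∈ Z, s ∉ E → f s = g s) →
      ∑ s ∈ Z, f s ≤ ∑ s ∈ E, f s + ∑ s ∈ ZT T, g s := by
    intro f g hf hg hfg
    have e1 : ∑ s ∈ Z, f s = ∑ s ∈ E, f s + ∑ s ∈ Z \ E, f s := by
      rw [add_comm, Finset.sum_sdiff hEZ]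
    rw [e1]
    apply add_le_add le_rfl
    calc ∑ s ∈ Z \ E, f s = ∑ s ∈ Z \ E, g s := Finset.sum_congr rfl fun s hs => by
          rw [Finset.mem_sdiff] at hs
          exact hfg s hs.1 hs.2
      _ ≤ ∑ s ∈ ZT T, g s := by
          apply Finset.sum_le_sum_of_subset_of_nonneg
          · intro s hs
            rw [Finset.mem_sdiff] at hs
            exact hcov s hs.1 hs.2
          · intro s _ _
            exact hg s
  obtain ⟨W, hW⟩ : ∃ W : ℝ, W = L * (T * n2) := ⟨_, rfl⟩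
  have hW0 : 0 ≤ W := by rw [hW]; positivity
  have hEL : 32 * L ^ 2 * (T ^ (1 / 40 : ℝ) * n2) ≤ ε₁ * W := by
    rw [hW]
    have : 32 * L ^ 2 * (T ^ (1 / 40 : ℝ) * n2) = (32 * L * T ^ (1 / 40 : ℝ)) * (L * n2) := by ring
    rw [this]
    calc (32 * L * T ^ (1 / 40 : ℝ)) * (L * n2) ≤ (ε₁ * T) * (L * n2) := by gcongr
      _ = ε₁ * (L * (T * n2)) := by ring
  -- the sums
  obtain ⟨S0, hS0⟩ : ∃ S0 : ℝ, S0 = ∑ s ∈ Z, (mz s : ℝ) * ‖dp N b s.im‖ ^ 2 := ⟨_, rfl⟩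
  obtain ⟨S0', hS0'⟩ : ∃ S0' : ℝ, S0' = ∑ s ∈ ZT T, (mz s : ℝ) * ‖dp N b s.im‖ ^ 2 := ⟨_, rfl⟩
  obtain ⟨Sn, hSn⟩ : ∃ Sn : ℝ, Sn = ∑ s ∈ ZT T, (mz s : ℝ) * ‖dp N b s.im‖ ^ 2 * nj T j s := ⟨_, rfl⟩
  obtain ⟨S1, hS1⟩ : ∃ S1 : ℝ, S1 = ∑ s ∈ ZT T, (mz s : ℝ) * ‖dp N b s.im‖ ^ 2 * Sg (Rj j) lam T s := ⟨_, rfl⟩
  have hS0a : 0 ≤ S0 - S0' := by
    rw [hS0, hS0', sub_nonneg]
    exact Finset.sum_le_sum_of_subset_of_nonneg hsub (fun _ _ _ => by positivity)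
  have hEsum : ∀ f : ℂ → ℝ, ∀ c : ℝ, (∀ s ∈ E, f s ≤ c) → 0 ≤ c → ∑ s ∈ E, f s ≤ 8 * L * c := by
    intro f c hf hc
    refine (Finset.sum_le_card_nsmul E f c hf).trans ?_
    rw [nsmul_eq_mul]
    gcongr
  have hnn : 0 ≤ T ^ (1 / 40 : ℝ) * n2 := by positivity
  have hS0b : S0 - S0' ≤ ε₁ * W := by
    have e1 := hsplit (fun s => (mz s : ℝ) * ‖dp N b s.im‖ ^ 2) (fun s => (mz s : ℝ) * ‖dp N b s.im‖ ^ 2)
      (fun s => by positivity) (fun s => by positivity) (fun _ _ _ => rfl)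
    rw [← hS0, ← hS0'] at e1
    have e2 := hEsum (fun s => (mz s : ℝ) * ‖dp N b s.im‖ ^ 2) (T ^ (1 / 40 : ℝ) * n2) (fun s hs => by
      rw [hm s (hEZ hs), one_mul]
      exact hB _) hnn
    have e3 : 8 * L * (T ^ (1 / 40 : ℝ) * n2) ≤ 32 * L ^ 2 * (T ^ (1 / 40 : ℝ) * n2) := by
      apply mul_le_mul_of_nonneg_right _ hnn
      nlinarith
    linarith
  -- the pair count
  obtain ⟨Nj, hNj⟩ : ∃ Nj : ℂ → ℝ, Nj = fun s => ∑ s' ∈ Z.filter (fun s' =>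
      |(|s'.im - s.im| * L / (2 * Real.pi)) - j / 2| ≤ 1 / 8), (mz s' : ℝ) := ⟨_, rfl⟩
  have hNj0 : ∀ s, 0 ≤ Nj s := by
    intro s
    rw [hNj]
    positivity
  have hnj0 : ∀ s, 0 ≤ nj T j s := by
    intro s
    unfold nj
    positivity
  have hwin : ∀ s s' : ℂ, |(|s'.im - s.im| * L / (2 * Real.pi)) - j / 2| ≤ 1 / 8 → |s'.im - s.im| ≤ 1 := by
    intro s s' h
    have h5 := (abs_le.1 h).2
    have h6 : |s'.im - s.im| * L / (2 * Real.pi) ≤ j / 2 + 1 / 8 := by linarith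
    rw [div_le_iff₀ (by positivity)] at h6
    have h7 : |s'.im - s.im| * L ≤ 1 * L := by linarith
    exact le_of_mul_le_mul_right h7 hL0
  have hNjL : ∀ s, Nj s ≤ 4 * L := by
    intro s
    have c1 := gc s.im
    rw [← hZ, ← hL] at c1
    refine le_trans ?_ c1
    rw [hNj]
    dsimp only
    calc ∑ s' ∈ Z.filter (fun s' => |(|s'.im - s.im| * L / (2 * Real.pi)) - j / 2| ≤ 1 / 8), (mz s' : ℝ)
        = ((Z.filter (fun s' => |(|s'.im - s.im| * L / (2 * Real.pi)) - j / 2| ≤ 1 / 8)).card : ℝ) := by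
          rw [Finset.card_eq_sum_ones, Nat.cast_sum]
          apply Finset.sum_congr rfl
          intro s' hs'
          rw [hm s' (Finset.mem_filter.1 hs').1, Nat.cast_one]
      _ ≤ _ := by
          have : Z.filter (fun s' => |(|s'.im - s.im| * L / (2 * Real.pi)) - j / 2| ≤ 1 / 8) ⊆
              Z.filter (fun s' => |s'.im - s.im| ≤ 1) := by
            intro s' hs'
            rw [Finset.mem_filter] at hs' ⊢
            exact ⟨hs'.1, hwin s s' hs'.2⟩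
          exact_mod_cast Finset.card_le_card this
  have hPK : PK T N b j = ∑ s ∈ Z, (mz s : ℝ) * ‖dp N b s.im‖ ^ 2 * Nj s := by
    rw [hNj, hZ, hL]
    rfl
  have hnjle : ∀ s, nj T j s ≤ Nj s := by
    intro s
    rw [hNj]
    unfold nj
    rw [← hL]
    dsimp only
    apply Finset.sum_le_sum_of_subset_of_nonneg
    · exact Finset.filter_subset_filter _ hsub
    · intro _ _ _
      positivity
  have hnjeq : ∀ s ∈ Z, s ∉ E → Nj s = nj T j s := by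
    intro s hs hsE
    have hsT := hcov s hs hsE
    rw [hE, Finset.mem_filter, not_and_or, not_or, not_le, not_le] at hsE
    rcases hsE with h | h
    · exact absurd hs h
    rw [hNj]
    unfold nj
    rw [← hL]
    dsimp only
    congr 1
    apply Finset.Subset.antisymm
    · intro s' hs'
      rw [Finset.mem_filter] at hs' ⊢
      refine ⟨?_, hs'.2⟩
      have h8 := abs_le.1 (hwin s s' hs'.2)
      have h9 := hs'.1
      rw [hZ, mem_Zz hT1] at h9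
      unfold ZT
      rw [mem_Zz (by linarith)]
      exact ⟨h9.1, h9.2.1, by linarith [h.1], by linarith [h.2], h9.2.2.2.2⟩
    · exact Finset.filter_subset_filter _ hsub
  have hPa : 0 ≤ PK T N b j - Sn := by
    rw [hPK, hSn, sub_nonneg]
    refine le_trans (Finset.sum_le_sum (g := fun s => (mz s : ℝ) * ‖dp N b s.im‖ ^ 2 * Nj s) ?_) ?_
    · intro s _
      have := hnjle s
      gcongr
    · exact Finset.sum_le_sum_of_subset_of_nonneg hsub (fun s _ _ => by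
        have := hNj0 s
        positivity)
  have hPb : PK T N b j - Sn ≤ ε₁ * W := by
    have e1 := hsplit (fun s => (mz s : ℝ) * ‖dp N b s.im‖ ^ 2 * Nj s)
      (fun s => (mz s : ℝ) * ‖dp N b s.im‖ ^ 2 * nj T j s)
      (fun s => by have := hNj0 s; positivity) (fun s => by have := hnj0 s; positivity)
      (fun s hs hsE => by rw [hnjeq s hs hsE])
    rw [← hPK, ← hSn] at e1
    have e2 := hEsum (fun s => (mz s : ℝ) * ‖dp N b s.im‖ ^ 2 * Nj s) (T ^ (1 / 40 : ℝ) * n2 * (4 * L)) (fun s hs => by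
      rw [hm s (hEZ hs), one_mul]
      exact mul_le_mul (hB _) (hNjL s) (hNj0 s) hnn) (by positivity)
    have e3 : 8 * L * (T ^ (1 / 40 : ℝ) * n2 * (4 * L)) = 32 * L ^ 2 * (T ^ (1 / 40 : ℝ) * n2) := by ring
    linarith
  -- the comparison
  have hP3 : |S1 - -2 * (-1) ^ j * S0' - Sn| ≤ η * (C * W) := by
    have e1 : S1 - -2 * (-1) ^ j * S0' - Sn = ∑ s ∈ ZT T, (mz s : ℝ) * ‖dp N b s.im‖ ^ 2 *
        (Sg (Rj j) lam T s - -2 * (-1) ^ j - nj T j s) := by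
      rw [hS1, hS0', hSn, Finset.mul_sum, ← Finset.sum_sub_distrib, ← Finset.sum_sub_distrib]
      apply Finset.sum_congr rfl
      intro s _
      ring
    rw [e1]
    refine (Finset.abs_sum_le_sum_abs _ _).trans ?_
    have e2 : ∀ s ∈ ZT T, |(mz s : ℝ) * ‖dp N b s.im‖ ^ 2 * (Sg (Rj j) lam T s - -2 * (-1) ^ j - nj T j s)| ≤
        η * ((mz s : ℝ) * (SS δ T s.im ^ 2 * ‖dp N b s.im‖ ^ 2)) := by
      intro s hs
      have h5 := gz s hs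
      have hs2 := hsub hs
      have h6 : 1 ≤ SS δ T s.im := SS_ge δ hδ hT16 (by rw [← hZ]; exact hs2) (gs s hs2).1
      have h7 : SS δ T s.im ≤ SS δ T s.im ^ 2 := by nlinarith
      rw [abs_mul, abs_of_nonneg (by positivity : 0 ≤ (mz s : ℝ) * ‖dp N b s.im‖ ^ 2)]
      calc (mz s : ℝ) * ‖dp N b s.im‖ ^ 2 * |Sg (Rj j) lam T s - -2 * (-1) ^ j - nj T j s|
          ≤ (mz s : ℝ) * ‖dp N b s.im‖ ^ 2 * (η * SS δ T s.im ^ 2) := by
            apply mul_le_mul_of_nonneg_left _ (by positivity)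
            exact h5.trans (mul_le_mul_of_nonneg_left h7 hη.le)
        _ = _ := by ring
    refine (Finset.sum_le_sum e2).trans ?_
    rw [← Finset.mul_sum]
    apply mul_le_mul_of_nonneg_left _ hη.le
    have e3 : C * L * (T * n2) = C * W := by rw [hW]; ring
    rw [← e3]
    refine le_trans ?_ k3
    exact Finset.sum_le_sum_of_subset_of_nonneg hsub (fun _ _ _ => by positivity)
  -- conclusion
  obtain ⟨X, hX⟩ : ∃ X : ℝ, X = L / (2 * Real.pi) * (T * n2) := ⟨_, rfl⟩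
  have hX0 : 0 ≤ X := by rw [hX]; positivity
  have hXW : X ≤ W := by
    rw [hX, hW]
    apply mul_le_mul_of_nonneg_right _ (by positivity)
    exact div_le_self hL0.le (by linarith)
  have h8 := kap_eq hj hl1 hl2.le
  have key := combine (S1 := S1) (S0' := S0') (S0 := S0) (Sn := Sn) (Pk := PK T N b j) (X := X) (W := W)
    (kp := kap (Rj j) lam) (c := 1 - 2 * (1 - (-1) ^ j) / (Real.pi ^ 2 * j ^ 2)) (σ := (-1) ^ j) (ε := ε)
    (ε₁ := ε₁) (η := η) (C := C) (sigma_abs j) hη.le hX0 hXW ?_ ?_ ?_ hP3 hS0a hS0b hPa hPb (h8.trans hl3)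
  · have e1 : (1 - 2 * (1 - (-1) ^ j) / (Real.pi ^ 2 * j ^ 2)) * (L / (2 * Real.pi)) * (T * n2) =
        (1 - 2 * (1 - (-1) ^ j) / (Real.pi ^ 2 * j ^ 2)) * X := by rw [hX]; ring
    have e2 : ε * L * (T * n2) = ε * W := by rw [hW]; ring
    rw [e1, e2]
    exact key
  · have e1 : η * (C + 1) = ε / 4 := by
      rw [hηd]
      have : C + 1 ≠ 0 := by linarith
      field_simp
    rw [e1, hε₁d]
    linarith
  · have e1 : kap (Rj j) lam * (L / (2 * Real.pi)) * (T * n2) = kap (Rj j) lam * X := by rw [hX]; ring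
    have e2 : ε₁ * L * (T * n2) = ε₁ * W := by rw [hW]; ring
    rw [e1, e2, ← hS1] at k1
    exact k1
  · have e2 : ε₁ * L * (T * n2) = ε₁ * W := by rw [hW]; ring
    rw [e2, ← hS0, ← hX] at k2
    exact k2

theorem t_AHR : J_AHR := by
  intro hSPC hSAMP hSS hRH hAH ε K hε
  induction K with
  | zero =>
    refine ⟨1, one_pos, Eventually.of_forall fun T N _ b k h1 h2 => ?_⟩
    omega
  | succ K ih =>
    obtain ⟨θ, hθ, h1⟩ := ih
    obtain ⟨θ', hθ', h2⟩ := one_j hSPC hSAMP hSS hRH hAH (j := K + 1) (by omega) hε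
    refine ⟨min θ θ', lt_min hθ hθ', ?_⟩
    filter_upwards [h1, h2, eventually_ge_atTop 1] with T g1 g2 hT N hN b k hk1 hk2
    have hN1 : (N : ℝ) ≤ T ^ θ := hN.trans (Real.rpow_le_rpow_of_exponent_le hT (min_le_left _ _))
    have hN2 : (N : ℝ) ≤ T ^ θ' := hN.trans (Real.rpow_le_rpow_of_exponent_le hT (min_le_right _ _))
    rcases Nat.lt_or_ge K k with h | h
    · have hk : k = K + 1 := by omega
      rw [hk]
      exact g2 N hN2 b
    · exact g1 N hN1 b k hk1 h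

end

end Pool.Agent.Q38.UM
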