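import Pool.Agent.Q97.UM.Stm13

set_option autoImplicit false

/-! Project UM6 (helper97), job AHR, first part: the test function (helper38). -/

namespace Pool.Agent.Q38.UM

open Filter Topology MeasureTheory
open Pool.Agent.Q97.UM

noncomputable section

lemma cos_lip (a b : ℝ) : |Real.cos a - Real.cos b| ≤ |a - b| := by
  rw [Real.cos_sub_cos, abs_mul, abs_mul, abs_neg, abs_of_pos (by norm_num : (0 : ℝ) < 2)]
  have h1 := Real.abs_sin_le_one ((a + b) / 2)
  have h2 : |Real.sin ((a - b) / 2)| ≤ |(a - b) / 2| := Real.abs_sin_le_abs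
  have h3 : |(a - b) / 2| = |a - b| / 2 := by
    rw [abs_div, abs_of_pos (by norm_num : (0 : ℝ) < 2)]
  rw [h3] at h2
  nlinarith [abs_nonneg (Real.sin ((a - b) / 2)), abs_nonneg (Real.sin ((a + b) / 2))]

/-- the test function -/
def Rj (j : ℕ) (x : ℝ) : ℝ := Real.cos (j * Real.pi * min |x| 1) - (-1) ^ j

lemma Rj_eq (j : ℕ) {x : ℝ} (hx : |x| ≤ 1) : Rj j x = Real.cos (j * Real.pi * x) - (-1) ^ j := by
  unfold Rj
  rw [min_eq_left hx]
  congr 1
  rcases abs_choice x with h | h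
  · rw [h]
  · rw [h, mul_neg, Real.cos_neg]

lemma Rj_zero (j : ℕ) {x : ℝ} (hx : 1 ≤ |x|) : Rj j x = 0 := by
  unfold Rj
  rw [min_eq_right hx, mul_one, Real.cos_nat_mul_pi, sub_self]

lemma Rj_lip (j : ℕ) (x y : ℝ) : |Rj j x - Rj j y| ≤ j * Real.pi * |x - y| := by
  unfold Rj
  have e : Real.cos (j * Real.pi * min |x| 1) - (-1) ^ j - (Real.cos (j * Real.pi * min |y| 1) - (-1) ^ j) =
      Real.cos (j * Real.pi * min |x| 1) - Real.cos (j * Real.pi * min |y| 1) := by ring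
  rw [e]
  refine (cos_lip _ _).trans ?_
  rw [← mul_sub, abs_mul, abs_of_nonneg (by positivity : (0 : ℝ) ≤ j * Real.pi)]
  apply mul_le_mul_of_nonneg_left _ (by positivity)
  have h1 := abs_min_sub_min_le_max |x| 1 |y| 1
  rw [sub_self, abs_zero, max_eq_left (abs_nonneg _)] at h1
  exact h1.trans (abs_abs_sub_abs_le_abs_sub x y)

lemma Rj_bd (j : ℕ) (x : ℝ) : |Rj j x| ≤ 2 := by
  unfold Rj
  have h1 := Real.abs_cos_le_one (j * Real.pi * min |x| 1)
  have h2 : |((-1 : ℝ)) ^ j| = 1 := by rw [abs_pow, abs_neg, abs_one, one_pow]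
  have h3 := abs_sub (Real.cos (j * Real.pi * min |x| 1)) ((-1) ^ j)
  linarith

lemma Rj_cont (j : ℕ) : Continuous (Rj j) := by
  unfold Rj
  fun_prop

/-- `∫ cos (c α)` -/
def GG (c : ℝ) : ℝ := ∫ α in (-1 : ℝ)..1, Real.cos (c * α)

lemma GG_zero : GG 0 = 2 := by
  unfold GG
  simp
  norm_num

lemma GG_eq {c : ℝ} (hc : c ≠ 0) : GG c = 2 * Real.sin c / c := by
  unfold GG
  rw [intervalIntegral.integral_comp_mul_left (fun x => Real.cos x) hc, integral_cos]
  rw [mul_one, mul_neg, mul_one, Real.sin_neg, smul_eq_mul]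
  ring

lemma ii_cos (c : ℝ) : IntervalIntegrable (fun α : ℝ => Real.cos (c * α)) volume (-1) 1 :=
  (by fun_prop : Continuous fun α : ℝ => Real.cos (c * α)).intervalIntegrable _ _

lemma fR_eq (j : ℕ) (x : ℝ) : fR (Rj j) x =
    (GG (j * Real.pi - x) + GG (j * Real.pi + x)) / 2 - (-1) ^ j * GG x := by
  have h1 : fR (Rj j) x = ∫ α in (-1 : ℝ)..1, ((Real.cos ((j * Real.pi - x) * α) +
      Real.cos ((j * Real.pi + x) * α)) / 2 - (-1) ^ j * Real.cos (x * α)) := by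
    unfold fR
    apply intervalIntegral.integral_congr
    intro α hα
    rw [Set.uIcc_of_le (by norm_num)] at hα
    dsimp only
    rw [Rj_eq j (abs_le.2 hα)]
    have e1 : Real.cos ((j * Real.pi - x) * α) = Real.cos (j * Real.pi * α - α * x) := by
      congr 1; ring
    have e2 : Real.cos ((j * Real.pi + x) * α) = Real.cos (j * Real.pi * α + α * x) := by
      congr 1; ring
    rw [e1, e2, Real.cos_sub, Real.cos_add, mul_comm x α]
    ring
  rw [h1, intervalIntegral.integral_sub, intervalIntegral.integral_div, intervalIntegral.integral_add (ii_cos _) (ii_cos _),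
    intervalIntegral.integral_const_mul]
  · rfl
  · exact ((ii_cos _).add (ii_cos _)).div_const _
  · exact (ii_cos _).const_mul _

lemma sigma_sq (j : ℕ) : ((-1 : ℝ)) ^ j * (-1) ^ j = 1 := by
  rw [← mul_pow]; norm_num

lemma sigma_abs (j : ℕ) : |((-1 : ℝ)) ^ j| = 1 := by rw [abs_pow, abs_neg, abs_one, one_pow]

lemma fR_lip (j : ℕ) (x y : ℝ) : |fR (Rj j) x - fR (Rj j) y| ≤ 4 * |x - y| := by
  unfold fR
  have hi : ∀ z : ℝ, IntervalIntegrable (fun α : ℝ => Rj j α * Real.cos (α * z)) volume (-1) 1 := fun z =>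
    ((Rj_cont j).mul (by fun_prop)).intervalIntegrable _ _
  rw [← intervalIntegral.integral_sub (hi x) (hi y), ← Real.norm_eq_abs]
  have h := intervalIntegral.norm_integral_le_of_norm_le_const (a := -1) (b := 1) (C := 2 * |x - y|)
    (f := fun α : ℝ => Rj j α * Real.cos (α * x) - Rj j α * Real.cos (α * y)) ?_
  · refine h.trans (le_of_eq ?_)
    norm_num
    ring
  · intro α hα
    rw [Set.uIoc_of_le (by norm_num)] at hα
    rw [← mul_sub, norm_mul, Real.norm_eq_abs, Real.norm_eq_abs]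
    have h1 := Rj_bd j α
    have h2 := cos_lip (α * x) (α * y)
    rw [← mul_sub, abs_mul] at h2
    have h3 : |α| ≤ 1 := abs_le.2 ⟨hα.1.le, hα.2⟩
    have h4 : |α| * |x - y| ≤ 1 * |x - y| := mul_le_mul_of_nonneg_right h3 (abs_nonneg _)
    exact mul_le_mul h1 (by linarith) (abs_nonneg _) (by norm_num)

lemma fR_bd (j : ℕ) (x : ℝ) : |fR (Rj j) x| ≤ 4 := by
  unfold fR
  rw [← Real.norm_eq_abs]
  have h := intervalIntegral.norm_integral_le_of_norm_le_const (a := -1) (b := 1) (C := 2)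
    (f := fun α : ℝ => Rj j α * Real.cos (α * x)) ?_
  · refine h.trans (le_of_eq ?_)
    norm_num
  · intro α _
    rw [norm_mul, Real.norm_eq_abs, Real.norm_eq_abs]
    have h1 := Rj_bd j α
    have h2 := Real.abs_cos_le_one (α * x)
    nlinarith [abs_nonneg (Rj j α), abs_nonneg (Real.cos (α * x))]

lemma fR_even (j : ℕ) (x : ℝ) : fR (Rj j) (-x) = fR (Rj j) x := by
  unfold fR
  congr 1
  funext α
  rw [mul_neg, Real.cos_neg]

lemma fR_abs (j : ℕ) (x : ℝ) : fR (Rj j) |x| = fR (Rj j) x := by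
  rcases abs_choice x with h | h
  · rw [h]
  · rw [h, fR_even]

lemma sin_int (n : ℤ) : Real.sin (n * Real.pi) = 0 := Real.sin_int_mul_pi n

/-- the value at zero -/
lemma fR_zero {j : ℕ} (hj : 1 ≤ j) : fR (Rj j) 0 = -2 * (-1) ^ j := by
  have hj0 : (j : ℝ) * Real.pi ≠ 0 := by
    have : (j : ℝ) ≠ 0 := by exact_mod_cast (by omega : j ≠ 0)
    exact mul_ne_zero this Real.pi_ne_zero
  rw [fR_eq, sub_zero, add_zero, GG_eq hj0, Real.sin_nat_mul_pi, GG_zero]
  ring

/-- the values at the multiples of `π` -/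
lemma fR_pi {j k : ℕ} (hj : 1 ≤ j) (hk : 1 ≤ k) : fR (Rj j) (k * Real.pi) = if k = j then 1 else 0 := by
  have hk0 : (k : ℝ) * Real.pi ≠ 0 := by
    have : (k : ℝ) ≠ 0 := by exact_mod_cast (by omega : k ≠ 0)
    exact mul_ne_zero this Real.pi_ne_zero
  have hs0 : (j : ℝ) * Real.pi + k * Real.pi ≠ 0 := by
    have : (0 : ℝ) < j := by exact_mod_cast hj
    have := Real.pi_pos
    positivity
  have e1 : GG ((j : ℝ) * Real.pi + k * Real.pi) = 0 := by
    rw [GG_eq hs0]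
    have : (j : ℝ) * Real.pi + k * Real.pi = ((j + k : ℕ) : ℝ) * Real.pi := by push_cast; ring
    rw [this, Real.sin_nat_mul_pi]
    simp
  rw [fR_eq, e1, GG_eq hk0, Real.sin_nat_mul_pi]
  split_ifs with h
  · rw [h, sub_self, GG_zero]
    ring
  · have hd0 : (j : ℝ) * Real.pi - k * Real.pi ≠ 0 := by
      rw [← sub_mul]
      apply mul_ne_zero _ Real.pi_ne_zero
      rw [sub_ne_zero]
      have hjk : j ≠ k := fun h' => h h'.symm
      exact_mod_cast hjk
    rw [GG_eq hd0]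
    have : (j : ℝ) * Real.pi - k * Real.pi = (((j : ℤ) - k : ℤ) : ℝ) * Real.pi := by push_cast; ring
    rw [this, Real.sin_int_mul_pi]
    simp

/-- decay -/
lemma fR_dec {j : ℕ} (hj : 1 ≤ j) {x : ℝ} (hx : 2 * (j * Real.pi) ≤ x) :
    |fR (Rj j) x| ≤ 3 * (j * Real.pi) ^ 2 / x ^ 3 := by
  obtain ⟨a, ha⟩ : ∃ a : ℝ, a = j * Real.pi := ⟨_, rfl⟩
  have hj0 : (0 : ℝ) < j := by exact_mod_cast hj
  have ha0 : 0 < a := by rw [ha]; exact mul_pos hj0 Real.pi_pos
  rw [fR_eq]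
  have hsin : Real.sin (j * Real.pi) = 0 := Real.sin_nat_mul_pi j
  have hcos : Real.cos (j * Real.pi) = (-1) ^ j := Real.cos_nat_mul_pi j
  rw [← ha] at hx hsin hcos ⊢
  have hx0 : 0 < x := by linarith
  have h1 : a - x ≠ 0 := by intro h; linarith
  have h2 : a + x ≠ 0 := by intro h; linarith
  rw [GG_eq h1, GG_eq h2, GG_eq hx0.ne', Real.sin_sub, Real.sin_add, hsin, hcos]
  have h3 : x - a ≠ 0 := by intro h; linarith
  have e : (2 * (0 * Real.cos x - (-1) ^ j * Real.sin x) / (a - x) +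
      2 * (0 * Real.cos x + (-1) ^ j * Real.sin x) / (a + x)) / 2 - (-1) ^ j * (2 * Real.sin x / x) =
      (-1) ^ j * Real.sin x * (2 * a ^ 2 / (x * ((x - a) * (x + a)))) := by
    have h4 : x + a ≠ 0 := by intro h; linarith
    have h5 : a - x = -(x - a) := by ring
    rw [h5, add_comm a x]
    field_simp
    ring
  rw [e, abs_mul, abs_mul, sigma_abs, one_mul]
  have h4 : 0 < (x - a) * (x + a) := mul_pos (by linarith) (by linarith)
  have h5 : 3 / 4 * x ^ 2 ≤ (x - a) * (x + a) := by nlinarith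
  rw [abs_of_pos (by positivity : 0 < 2 * a ^ 2 / (x * ((x - a) * (x + a))))]
  have h6 := Real.abs_sin_le_one x
  calc |Real.sin x| * (2 * a ^ 2 / (x * ((x - a) * (x + a)))) ≤ 1 * (2 * a ^ 2 / (x * ((x - a) * (x + a)))) := by
        gcongr
    _ = 2 * a ^ 2 / (x * ((x - a) * (x + a))) := one_mul _
    _ ≤ 2 * a ^ 2 / (x * (3 / 4 * x ^ 2)) := by gcongr
    _ = 8 / 3 * a ^ 2 / x ^ 3 := by
        field_simp
        ring
    _ ≤ 3 * a ^ 2 / x ^ 3 := by
        gcongr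
        norm_num

lemma tst (j : ℕ) (hj : 1 ≤ j) : ∃ M : ℝ, Tst (Rj j) (j * Real.pi) M := by
  obtain ⟨a, ha⟩ : ∃ a : ℝ, a = j * Real.pi := ⟨_, rfl⟩
  have hj0 : (1 : ℝ) ≤ j := by exact_mod_cast hj
  have ha1 : 1 ≤ a := by
    rw [ha]
    nlinarith [Real.pi_gt_three]
  refine ⟨4 * (1 + 4 * a ^ 2) + 6 * a ^ 2, Rj_lip j, fun x => ?_, fun x => Rj_zero j, fun x => ?_⟩
  · unfold Rj
    rw [abs_neg]
  · rw [← fR_abs, le_div_iff₀ (by positivity), ← sq_abs x]
    obtain ⟨y, hy⟩ : ∃ y : ℝ, y = |x| := ⟨_, rfl⟩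
    have hy0 : 0 ≤ y := by rw [hy]; exact abs_nonneg _
    rw [← hy]
    rcases le_total y (2 * a) with h | h
    · have h1 := fR_bd j y
      have h2 : y ^ 2 ≤ 4 * a ^ 2 := by nlinarith
      nlinarith [abs_nonneg (fR (Rj j) y), sq_nonneg y, sq_nonneg a]
    · have h1 := fR_dec hj (x := y) (by rw [← ha]; exact h)
      rw [← ha] at h1
      have hy2 : 2 ≤ y := by linarith
      have hyp : 0 < y := by linarith
      have h3 : 3 * a ^ 2 / y ^ 3 * (1 + y ^ 2) ≤ 6 * a ^ 2 := by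
        rw [div_mul_eq_mul_div, div_le_iff₀ (by positivity)]
        have h4 : 1 + y ^ 2 ≤ 2 * y ^ 3 := by nlinarith [sq_nonneg (y - 2), mul_pos hyp hyp]
        nlinarith [sq_nonneg a]
      have h4 : |fR (Rj j) y| * (1 + y ^ 2) ≤ 3 * a ^ 2 / y ^ 3 * (1 + y ^ 2) := by gcongr
      nlinarith [sq_nonneg a]

/-- the constant -/
lemma kap_eq {j : ℕ} (hj : 1 ≤ j) {lam : ℝ} (h1 : 1 / 2 ≤ lam) (h2 : lam ≤ 1) :
    |kap (Rj j) lam - (-2 * (-1) ^ j) - (1 - 2 * (1 - (-1) ^ j) / (Real.pi ^ 2 * j ^ 2))| ≤ 6 * (1 - lam) := by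
  obtain ⟨a, ha⟩ : ∃ a : ℝ, a = j * Real.pi := ⟨_, rfl⟩
  have hj0 : (1 : ℝ) ≤ j := by exact_mod_cast hj
  have ha3 : 3 ≤ a := by
    rw [ha]
    nlinarith [Real.pi_gt_three]
  have ha0 : a ≠ 0 := by linarith
  have hsin : Real.sin a = 0 := by rw [ha]; exact Real.sin_nat_mul_pi j
  have hcos : Real.cos a = (-1) ^ j := by rw [ha]; exact Real.cos_nat_mul_pi j
  have hint : ∫ α in (0 : ℝ)..1, α * Rj j α = ((-1) ^ j - 1) / a ^ 2 - (-1) ^ j / 2 := by
    have e1 : ∫ α in (0 : ℝ)..1, α * Rj j α = ∫ α in (0 : ℝ)..1, α * (Real.cos (a * α) - (-1) ^ j) := by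
      apply intervalIntegral.integral_congr
      intro α hα
      rw [Set.uIcc_of_le (by norm_num)] at hα
      dsimp only
      rw [Rj_eq j (abs_le.2 ⟨by linarith [hα.1], hα.2⟩), ha]
    rw [e1, intervalIntegral.integral_eq_sub_of_hasDerivAt
      (f := fun α => α * Real.sin (a * α) / a + Real.cos (a * α) / a ^ 2 - (-1) ^ j * α ^ 2 / 2)]
    · simp only [mul_one, mul_zero, Real.cos_zero, hsin, hcos]
      ring
    · intro α _
      have d1 : HasDerivAt (fun α : ℝ => a * α) a α := by simpa using (hasDerivAt_id α).const_mul a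
      have d2 := d1.sin
      have d3 := d1.cos
      have d4 := (((hasDerivAt_id α).mul d2).div_const a).add (d3.div_const (a ^ 2))
      have d5 : HasDerivAt (fun α : ℝ => (-1) ^ j * α ^ 2 / 2) ((-1) ^ j * α) α := by
        have := ((hasDerivAt_pow 2 α).const_mul ((-1 : ℝ) ^ j)).div_const 2
        refine this.congr_deriv ?_
        push_cast
        ring
      have d6 := d4.sub d5
      refine d6.congr_deriv ?_
      simp only [id]
      field_simp
      ring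
    · apply Continuous.intervalIntegrable
      fun_prop
  unfold kap
  have hR0 : Rj j 0 = 1 - (-1) ^ j := by
    rw [Rj_eq j (by simp), mul_zero, Real.cos_zero]
  have e2 : Real.pi ^ 2 * (j : ℝ) ^ 2 = a ^ 2 := by rw [ha]; ring
  rw [hint, hR0, e2]
  obtain ⟨σ, hσ⟩ : ∃ σ : ℝ, σ = (-1) ^ j := ⟨_, rfl⟩
  have hσ1 : |σ| = 1 := by rw [hσ]; exact sigma_abs j
  rw [← hσ]
  have hl0 : lam ≠ 0 := by linarith
  have e3 : (1 - σ) / lam + 2 * lam * ((σ - 1) / a ^ 2 - σ / 2) - -2 * σ - (1 - 2 * (1 - σ) / a ^ 2) =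
      (1 - lam) * ((1 - σ) / lam + (2 * (1 - σ) / a ^ 2 + σ)) := by
    field_simp
    ring
  rw [e3, abs_mul, abs_of_nonneg (by linarith : 0 ≤ 1 - lam), mul_comm]
  apply mul_le_mul_of_nonneg_right _ (by linarith)
  have hσ2 : |1 - σ| ≤ 2 := by
    have := abs_sub 1 σ
    rw [hσ1, abs_one] at this
    linarith
  have h3 : |(1 - σ) / lam| ≤ 4 := by
    rw [abs_div, abs_of_pos (by linarith : 0 < lam), div_le_iff₀ (by linarith)]
    linarith
  have h4 : |2 * (1 - σ) / a ^ 2| ≤ 1 := by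
    rw [abs_div, abs_mul, abs_of_pos (by norm_num : (0 : ℝ) < 2), abs_of_pos (by positivity : 0 < a ^ 2),
      div_le_iff₀ (by positivity)]
    nlinarith
  calc |(1 - σ) / lam + (2 * (1 - σ) / a ^ 2 + σ)| ≤ |(1 - σ) / lam| + |2 * (1 - σ) / a ^ 2 + σ| := abs_add_le _ _
    _ ≤ |(1 - σ) / lam| + (|2 * (1 - σ) / a ^ 2| + |σ|) := by
        gcongr
        exact abs_add_le _ _
    _ ≤ 6 := by linarith

end

end Pool.Agent.Q38.UM
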