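import Pool.Agent.Q38.UM.AHRa
import Pool.Agent.H370R2.DirGood

set_option autoImplicit false

/-! Project UM6 (helper97), job AHR, second part: counting, one zero (helper38). -/

namespace Pool.Agent.Q38.UM

open Filter Topology MeasureTheory Complex
open Pool.Agent.Q97.UM

noncomputable section

/-- separated points in an interval -/
lemma card_sep {ι : Type*} (A : Finset ι) (x : ι → ℝ) (u d l : ℝ) (hd : 0 < d) (hl : 0 ≤ l)
    (h1 : ∀ b ∈ A, |x b - u| ≤ l) (h2 : ∀ b ∈ A, ∀ b' ∈ A, b ≠ b' → d ≤ |x b - x b'|) :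
    (A.card : ℝ) ≤ 2 * l / d + 1 := by
  have hnn : ∀ b ∈ A, 0 ≤ (x b - u + l) / d := fun b hb =>
    div_nonneg (by linarith [(abs_le.1 (h1 b hb)).1]) hd.le
  have h3 : A.card ≤ (Finset.range (⌊2 * l / d⌋₊ + 1)).card := by
    apply Finset.card_le_card_of_injOn (fun b => ⌊(x b - u + l) / d⌋₊)
    · intro b hb
      simp only [Finset.coe_range, Set.mem_Iio, Nat.lt_succ_iff]
      apply Nat.floor_le_floor
      have := (abs_le.1 (h1 b hb)).2
      gcongr
      linarith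
    · intro b hb b' hb' h
      by_contra hne
      have h4 := h2 b hb b' hb' hne
      simp only at h
      have e1 := Nat.floor_le (hnn b hb)
      have e2 := Nat.lt_floor_add_one ((x b - u + l) / d)
      have e3 := Nat.floor_le (hnn b' hb')
      have e4 := Nat.lt_floor_add_one ((x b' - u + l) / d)
      rw [h] at e1 e2
      rw [le_div_iff₀ hd] at e1 e3
      rw [div_lt_iff₀ hd] at e2 e4
      have h5 : |x b - x b'| < d := by
        rw [abs_lt]
        constructor <;> linarith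
      linarith
  rw [Finset.card_range] at h3
  have h4 : (A.card : ℝ) ≤ (⌊2 * l / d⌋₊ : ℝ) + 1 := by exact_mod_cast h3
  have h5 := Nat.floor_le (show 0 ≤ 2 * l / d by positivity)
  linarith

lemma mem_Zz {U1 U2 : ℝ} (hU : 1 ≤ U1) {s : ℂ} : s ∈ H370.Zf riemannZeta U1 U2 ↔
    0 < s.re ∧ s.re < 1 ∧ U1 < s.im ∧ s.im ≤ U2 ∧ riemannZeta s = 0 :=
  H370.mem_Zf H370.good_zeta hU

lemma ZT_sub_Zf {T : ℝ} (hT : 1 ≤ T) : ZT T ⊆ H370.Zf riemannZeta T (2 * T) := by
  intro s hs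
  unfold ZT at hs
  rw [mem_Zz (by linarith)] at hs
  rw [mem_Zz hT]
  exact ⟨hs.1, hs.2.1, by linarith [hs.2.2.1], by linarith [hs.2.2.2.1], hs.2.2.2.2⟩

lemma ZT_sub_ZD {T : ℝ} (hT : 16 ≤ T) : ZT T ⊆ ZD T := by
  intro s hs
  unfold ZT at hs
  rw [mem_Zz (by linarith)] at hs
  unfold ZD
  rw [mem_Zz (by linarith)]
  exact ⟨hs.1, hs.2.1, by linarith [hs.2.2.1], by linarith [hs.2.2.2.1], hs.2.2.2.2⟩

lemma Zf_sub_ZD {T : ℝ} (hT : 16 ≤ T) : H370.Zf riemannZeta T (2 * T) ⊆ ZD T := by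
  intro s hs
  rw [mem_Zz (by linarith)] at hs
  unfold ZD
  rw [mem_Zz (by linarith)]
  exact ⟨hs.1, hs.2.1, by linarith [hs.2.2.1], by linarith [hs.2.2.2.1], hs.2.2.2.2⟩

lemma log_large (K : ℝ) : ∀ᶠ T : ℝ in atTop, K ≤ Real.log T :=
  Real.tendsto_log_atTop.eventually_ge_atTop K

/-- on the Alternative Hypothesis the zeros are simple and separated -/
lemma sep (hA : AHz) : ∀ᶠ T : ℝ in atTop, ∀ s ∈ H370.Zf riemannZeta T (2 * T), mz s = 1 ∧
    ∀ s' ∈ H370.Zf riemannZeta T (2 * T), s ≠ s' → Real.pi / (2 * Real.log T) ≤ |s.im - s'.im| := by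
  filter_upwards [hA (1 / 4) 1 (by norm_num) (by norm_num), log_large 1] with T h hL s hs
  obtain ⟨h1, h2⟩ := h s hs
  refine ⟨h1, fun s' hs' hne => ?_⟩
  have hL0 : 0 < Real.log T := by linarith
  have hpi := Real.pi_pos
  have h3 : 1 / 4 ≤ |s'.im - s.im| * Real.log T / (2 * Real.pi) := by
    rcases le_or_gt (|s'.im - s.im| * Real.log T / (2 * Real.pi)) 1 with h4 | h4
    · obtain ⟨k, hk, h5⟩ := h2 s' hs' (Ne.symm hne) h4
      have hk1 : (1 : ℝ) ≤ k := by exact_mod_cast hk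
      have := (abs_le.1 h5).1
      linarith
    · linarith
  rw [le_div_iff₀ (by positivity)] at h3
  rw [abs_sub_comm s.im, div_le_iff₀ (by positivity)]
  linarith

open Classical in
/-- zeros in a unit interval -/
lemma count (hA : AHz) : ∀ᶠ T : ℝ in atTop, ∀ u : ℝ,
    (((H370.Zf riemannZeta T (2 * T)).filter (fun s => |s.im - u| ≤ 1)).card : ℝ) ≤ 4 * Real.log T := by
  filter_upwards [sep hA, log_large 1] with T h hL u
  have hL0 : 0 < Real.log T := by linarith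
  have hpi := Real.pi_pos
  have hpi3 := Real.pi_gt_three
  have h1 := card_sep ((H370.Zf riemannZeta T (2 * T)).filter (fun s => |s.im - u| ≤ 1)) (fun s => s.im) u
    (Real.pi / (2 * Real.log T)) 1 (by positivity) (by norm_num)
    (fun b hb => (Finset.mem_filter.1 hb).2)
    (fun b hb b' hb' hne => (h b (Finset.mem_filter.1 hb).1).2 b' (Finset.mem_filter.1 hb').1 hne)
  refine h1.trans ?_
  have h2 : 2 * 1 / (Real.pi / (2 * Real.log T)) = 4 * Real.log T / Real.pi := by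
    field_simp
    ring
  rw [h2]
  have h3 : 4 * Real.log T / Real.pi ≤ 2 * Real.log T := by
    rw [div_le_iff₀ hpi]
    nlinarith
  linarith

open Classical in
/-- the number of zeros near normalised distance `j/2` -/
def nj (T : ℝ) (j : ℕ) (s : ℂ) : ℝ :=
  ∑ s' ∈ (ZT T).filter (fun s' => |(|s'.im - s.im| * Real.log T / (2 * Real.pi)) - j / 2| ≤ 1 / 8), (mz s' : ℝ)

/-- one pair -/
lemma one_pair {j : ℕ} (hj : 1 ≤ j) {η A P lam ε d L : ℝ} (hη : 0 < η) (hA1 : 1 ≤ A) (hA2 : 2 * j ≤ A)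
    (hA3 : 96 * (j * Real.pi) ^ 2 / η ≤ A) (hP : P = (1 + 2 * Real.pi * A) ^ 2) (hl1 : 1 / 2 ≤ lam)
    (hl2 : lam ≤ 1) (hl3 : 4 * ((1 - lam) * (2 * Real.pi * A) + 2 * Real.pi * ε) ≤ η / P) (hε0 : 0 < ε)
    (hε1 : ε ≤ 1 / 16) (hd : 0 ≤ d) (hL : 0 < L)
    (hk : d * L / (2 * Real.pi) ≤ A → ∃ k : ℕ, 1 ≤ k ∧ |d * L / (2 * Real.pi) - k / 2| ≤ ε) :
    |fR (Rj j) (lam * (L * d)) - (if |d * L / (2 * Real.pi) - j / 2| ≤ 1 / 8 then (1 : ℝ) else 0)| ≤
      η / (1 + L * d) ^ 2 := by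
  have hpi := Real.pi_pos
  have hpi3 := Real.pi_gt_three
  have hj0 : (1 : ℝ) ≤ j := by exact_mod_cast hj
  obtain ⟨y, hy⟩ : ∃ y : ℝ, y = L * d := ⟨_, rfl⟩
  obtain ⟨x, hx⟩ : ∃ x : ℝ, x = d * L / (2 * Real.pi) := ⟨_, rfl⟩
  have hxy : y = 2 * Real.pi * x := by rw [hy, hx]; field_simp
  have hy0 : 0 ≤ y := by rw [hy]; positivity
  rw [← hy]
  rw [← hx] at hk ⊢
  rcases le_or_gt x A with h | h
  · obtain ⟨k, hk1, hk2⟩ := hk h
    have hyk : |y - k * Real.pi| ≤ 2 * Real.pi * ε := by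
      have : y - k * Real.pi = 2 * Real.pi * (x - k / 2) := by rw [hxy]; ring
      rw [this, abs_mul, abs_of_pos (by positivity)]
      gcongr
    have hyA : y ≤ 2 * Real.pi * A := by
      rw [hxy]
      gcongr
    have h1 : |lam * y - k * Real.pi| ≤ (1 - lam) * (2 * Real.pi * A) + 2 * Real.pi * ε := by
      have e : lam * y - k * Real.pi = -((1 - lam) * y) + (y - k * Real.pi) := by ring
      rw [e]
      refine (abs_add_le _ _).trans ?_
      rw [abs_neg, abs_of_nonneg (mul_nonneg (by linarith) hy0)]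
      have : (1 - lam) * y ≤ (1 - lam) * (2 * Real.pi * A) := mul_le_mul_of_nonneg_left hyA (by linarith)
      linarith
    have h2 : |fR (Rj j) (lam * y) - fR (Rj j) (k * Real.pi)| ≤ η / P := by
      refine (fR_lip j _ _).trans (le_trans ?_ hl3)
      gcongr
    have h3 : η / P ≤ η / (1 + y) ^ 2 := by
      rw [hP]
      gcongr
    have h4 : (if |x - j / 2| ≤ 1 / 8 then (1 : ℝ) else 0) = fR (Rj j) (k * Real.pi) := by
      rw [fR_pi hj hk1]
      by_cases hkj : k = j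
      · rw [if_pos hkj, if_pos]
        rw [← hkj]
        linarith
      · rw [if_neg hkj, if_neg]
        intro h5
        rw [abs_le] at h5 hk2
        have h6 : (1 : ℝ) ≤ |(k : ℝ) - j| := by
          have h7 : (1 : ℤ) ≤ |(k : ℤ) - j| := Int.one_le_abs (sub_ne_zero.2 (by exact_mod_cast hkj))
          exact_mod_cast h7
        rcases le_abs.1 h6 with h7 | h7
        · linarith
        · linarith
    rw [h4]
    exact h2.trans h3
  · have h0 : (if |x - j / 2| ≤ 1 / 8 then (1 : ℝ) else 0) = 0 := by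
      rw [if_neg]
      intro h5
      rw [abs_le] at h5
      linarith
    rw [h0, sub_zero]
    have hyA : 2 * Real.pi * A < y := by
      rw [hxy]
      gcongr
    have hy6 : 6 < y := by nlinarith
    have hyp : 0 < y := by linarith
    have h1 : y / 2 ≤ lam * y := by nlinarith
    have h2 : 2 * (j * Real.pi) ≤ lam * y := by nlinarith
    have h3 := fR_dec hj h2
    refine h3.trans ?_
    have h4 : 3 * (j * Real.pi) ^ 2 / (lam * y) ^ 3 ≤ 3 * (j * Real.pi) ^ 2 / (y / 2) ^ 3 := by gcongr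
    refine h4.trans ?_
    rw [div_le_div_iff₀ (by positivity) (by positivity)]
    have h5 : (1 + y) ^ 2 ≤ 4 * y ^ 2 := by nlinarith
    have h6 : 96 * (j * Real.pi) ^ 2 ≤ η * y := by
      rw [div_le_iff₀ hη] at hA3
      have : A * η ≤ y * η := by
        apply mul_le_mul_of_nonneg_right _ hη.le
        nlinarith
      linarith
    calc 3 * (j * Real.pi) ^ 2 * (1 + y) ^ 2 ≤ 3 * (j * Real.pi) ^ 2 * (4 * y ^ 2) := by gcongr
      _ = 1 / 8 * (96 * (j * Real.pi) ^ 2) * y ^ 2 := by ring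
      _ ≤ 1 / 8 * (η * y) * y ^ 2 := by gcongr
      _ = η * (y / 2) ^ 3 := by ring

/-- one zero -/
lemma one_zero (hA : AHz) {j : ℕ} (hj : 1 ≤ j) {δ : ℝ} (hδ : 0 < δ) {η : ℝ} (hη : 0 < η) :
    ∃ lam : ℝ, 1 / 2 ≤ lam ∧ lam < 1 ∧ 6 * (1 - lam) ≤ η ∧ ∀ᶠ T : ℝ in atTop, ∀ s ∈ ZT T,
      |Sg (Rj j) lam T s - -2 * (-1) ^ j - nj T j s| ≤ η * SS δ T s.im := by
  classical
  have hpi := Real.pi_pos
  have hj0 : (1 : ℝ) ≤ j := by exact_mod_cast hj
  obtain ⟨A, hAd⟩ : ∃ A : ℝ, A = 2 * j + 96 * (j * Real.pi) ^ 2 / η + 1 := ⟨_, rfl⟩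
  have hq0 : 0 ≤ 96 * (j * Real.pi) ^ 2 / η := by positivity
  have hA1 : 1 ≤ A := by linarith
  have hA2 : 2 * (j : ℝ) ≤ A := by linarith
  have hA3 : 96 * (j * Real.pi) ^ 2 / η ≤ A := by linarith
  obtain ⟨P, hP⟩ : ∃ P : ℝ, P = (1 + 2 * Real.pi * A) ^ 2 := ⟨_, rfl⟩
  have hP0 : 0 < P := by rw [hP]; positivity
  obtain ⟨ε, hε⟩ : ∃ ε : ℝ, ε = min (1 / 16) (η / (16 * Real.pi * P)) := ⟨_, rfl⟩
  have hε0 : 0 < ε := by rw [hε]; exact lt_min (by norm_num) (by positivity)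
  have hε1 : ε ≤ 1 / 16 := by rw [hε]; exact min_le_left _ _
  have hε2 : ε ≤ η / (16 * Real.pi * P) := by rw [hε]; exact min_le_right _ _
  obtain ⟨μ, hμ⟩ : ∃ μ : ℝ, μ = min (1 / 2) (min (η / 6) (η / (16 * Real.pi * A * P))) := ⟨_, rfl⟩
  have hμ0 : 0 < μ := by rw [hμ]; exact lt_min (by norm_num) (lt_min (by positivity) (by positivity))
  have hμ1 : μ ≤ 1 / 2 := by rw [hμ]; exact min_le_left _ _
  have hμ2 : μ ≤ η / 6 := by rw [hμ]; exact (min_le_right _ _).trans (min_le_left _ _)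
  have hμ3 : μ ≤ η / (16 * Real.pi * A * P) := by rw [hμ]; exact (min_le_right _ _).trans (min_le_right _ _)
  refine ⟨1 - μ, by linarith, by linarith, by linarith, ?_⟩
  have hl3 : 4 * ((1 - (1 - μ)) * (2 * Real.pi * A) + 2 * Real.pi * ε) ≤ η / P := by
    rw [le_div_iff₀ (by positivity)] at hμ3 hε2
    rw [le_div_iff₀ hP0]
    nlinarith
  filter_upwards [hA ε A hε0 (by linarith), log_large 1, eventually_ge_atTop 16] with T hAH hL hT s hs
  have hT1 : 1 ≤ T := by linarith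
  have hL0 : 0 < Real.log T := by linarith
  have hsZ := ZT_sub_Zf hT1 hs
  obtain ⟨hms, hsp⟩ := hAH s hsZ
  -- one term
  have hterm : ∀ s' ∈ ZT T, |(mz s' : ℝ) * fR (Rj j) ((1 - μ) * Real.log T * (s.im - s'.im)) -
      (if s' = s then -2 * (-1) ^ j else 0) -
      (if |(|s'.im - s.im| * Real.log T / (2 * Real.pi)) - j / 2| ≤ 1 / 8 then (mz s' : ℝ) else 0)| ≤
      η * ((mz s' : ℝ) * (Real.exp (2 * δ * (Real.log T * |s'.re - 1 / 2|)) /
        (1 + Real.log T * |s'.im - s.im|) ^ 2)) := by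
    intro s' hs'
    have hs'Z := ZT_sub_Zf hT1 hs'
    have hm' : mz s' = 1 := (hAH s' hs'Z).1
    rw [hm', Nat.cast_one, one_mul, one_mul]
    by_cases h : s' = s
    · rw [h, if_pos rfl, sub_self, mul_zero, fR_zero hj, abs_zero, zero_mul, zero_div, sub_self, zero_sub, if_neg]
      · rw [neg_zero, abs_zero]
        positivity
      · rw [zero_sub, abs_neg, abs_of_nonneg (by positivity)]
        intro h5
        linarith
    · rw [if_neg h, sub_zero]
      have e1 : fR (Rj j) ((1 - μ) * Real.log T * (s.im - s'.im)) =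
          fR (Rj j) ((1 - μ) * (Real.log T * |s'.im - s.im|)) := by
        rw [← fR_abs j ((1 - μ) * Real.log T * (s.im - s'.im)), abs_mul, abs_mul,
          abs_of_nonneg (by linarith : 0 ≤ 1 - μ), abs_of_pos hL0, abs_sub_comm, mul_assoc]
      rw [e1]
      have h1 := one_pair (d := |s'.im - s.im|) (L := Real.log T) hj hη hA1 hA2 hA3 hP (by linarith)
        (by linarith) hl3 hε0 hε1 (abs_nonneg _) hL0 (fun h6 => hsp s' hs'Z h h6)
      refine h1.trans ?_
      rw [← mul_div_assoc]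
      have h2 : 1 ≤ Real.exp (2 * δ * (Real.log T * |s'.re - 1 / 2|)) := Real.one_le_exp (by positivity)
      have h3 : 0 < (1 + Real.log T * |s'.im - s.im|) ^ 2 := by positivity
      gcongr
      nlinarith
  -- the sum
  have e1 : Sg (Rj j) (1 - μ) T s - -2 * (-1) ^ j - nj T j s =
      ∑ s' ∈ ZT T, ((mz s' : ℝ) * fR (Rj j) ((1 - μ) * Real.log T * (s.im - s'.im)) -
      (if s' = s then -2 * (-1) ^ j else 0) -
      (if |(|s'.im - s.im| * Real.log T / (2 * Real.pi)) - j / 2| ≤ 1 / 8 then (mz s' : ℝ) else 0)) := by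
    rw [Finset.sum_sub_distrib, Finset.sum_sub_distrib, Finset.sum_ite_eq' (ZT T) s, if_pos hs]
    unfold Sg nj
    rw [Finset.sum_filter]
  rw [e1]
  refine (Finset.abs_sum_le_sum_abs _ _).trans ?_
  refine (Finset.sum_le_sum hterm).trans ?_
  rw [← Finset.mul_sum]
  apply mul_le_mul_of_nonneg_left _ hη.le
  unfold SS
  exact Finset.sum_le_sum_of_subset_of_nonneg (ZT_sub_ZD hT) (fun _ _ _ => by positivity)

/-- `SS ≥ 1` at a zero -/
lemma SS_ge (δ : ℝ) (hδ : 0 < δ) {T : ℝ} (hT : 16 ≤ T) {s : ℂ} (hs : s ∈ H370.Zf riemannZeta T (2 * T))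
    (hm : mz s = 1) : 1 ≤ SS δ T s.im := by
  have hL0 : 0 ≤ Real.log T := Real.log_nonneg (by linarith)
  unfold SS
  refine le_trans ?_ (Finset.single_le_sum (f := fun s' : ℂ => (mz s' : ℝ) *
    (Real.exp (2 * δ * (Real.log T * |s'.re - 1 / 2|)) / (1 + Real.log T * |s'.im - s.im|) ^ 2))
    (fun _ _ => by positivity) (Zf_sub_ZD hT hs))
  simp only [sub_self, abs_zero, mul_zero, add_zero, one_pow, div_one]
  rw [hm, Nat.cast_one, one_mul]
  exact Real.one_le_exp (by positivity)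

end

end Pool.Agent.Q38.UM
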