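import Pool.Agent.Q38.UM.COHc
import Pool.Agent.Helper601.Mertens

set_option autoImplicit false

/-! Project UM16 (helper97), job COH: coherent states. -/

namespace Pool.Agent.Q38.UM

open Filter Topology Complex
open Pool.Agent.Q97.UM Pool.Agent.Q190.UM

noncomputable section

/-- the coherent state as a Dirichlet polynomial -/
lemma dp_ee (hD : S_DPM) (k : ℝ) {X K : ℕ} (hX : 1 ≤ X) (t : ℝ) :
    dp (X ^ K) (ee k X K) t = TEx K ((k : ℂ) * dp X (pc X) t) := by
  have hP := (t_PWK hD).1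
  unfold TEx
  have h1 : ∀ r ∈ Finset.range (K + 1), ((k : ℂ) * dp X (pc X) t) ^ r / (r.factorial : ℂ) =
      ∑ n ∈ Finset.Icc 1 (X ^ K), (ec k r : ℂ) * ((ck X r n : ℂ) * (n : ℂ) ^ (-(1 / 2 + t * I))) := by
    intro r hr
    have hrK : r ≤ K := Nat.lt_succ_iff.1 (Finset.mem_range.1 hr)
    rw [mul_pow, ← hP r X t]
    have h2 : dp (X ^ r) (pk X r) t = ∑ n ∈ Finset.Icc 1 (X ^ K), (ck X r n : ℂ) * (n : ℂ) ^ (-(1 / 2 + t * I)) := by
      unfold dp
      have h3 : ∀ n ∈ Finset.Icc 1 (X ^ r), pk X r n * (n : ℂ) ^ (-(1 / 2 + t * I)) =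
          (ck X r n : ℂ) * (n : ℂ) ^ (-(1 / 2 + t * I)) := fun n _ => by rw [pk_eq]
      rw [Finset.sum_congr rfl h3]
      refine Finset.sum_subset (Finset.Icc_subset_Icc_right (Nat.pow_le_pow_right hX hrK)) fun n _ hn2 => ?_
      have h4 : ck X r n = 0 := by
        by_contra hne
        obtain ⟨i1, i2, _⟩ := ck_supp hne
        exact hn2 (Finset.mem_Icc.2 ⟨i1, i2⟩)
      rw [h4]; simp
    rw [h2, ← Finset.mul_sum]
    unfold ec
    push_cast
    ring
  rw [Finset.sum_congr rfl h1, Finset.sum_comm]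
  unfold dp
  refine Finset.sum_congr rfl fun n _ => ?_
  unfold ee LC
  push_cast
  rw [Finset.sum_mul]
  exact Finset.sum_congr rfl fun r _ => by ring

lemma ee_supp {k : ℝ} {X K n : ℕ} (hX : 1 ≤ X) (h : ee k X K n ≠ 0) : 1 ≤ n ∧ n ≤ X ^ K := by
  have h1 : LC (ec k) X (K + 1) n ≠ 0 := by
    intro h0
    apply h
    unfold ee
    rw [h0]; simp
  have h2 := LC_supp hX h1
  rw [Nat.add_sub_cancel] at h2
  exact ⟨h2.1, h2.2.1⟩

lemma SX_mono {X Y : ℕ} (h : X ≤ Y) : SX X ≤ SX Y := by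
  unfold SX
  refine Finset.sum_le_sum_of_subset_of_nonneg ?_ fun _ _ _ => by positivity
  intro p hp
  simp only [Finset.mem_filter, Finset.mem_Icc] at hp ⊢
  exact ⟨⟨hp.1.1, hp.1.2.trans h⟩, hp.2⟩

/-- upper bound for the sum of the reciprocals of the primes up to `T` -/
lemma SX_le {CM : ℝ} (hCM : ∀ N : ℕ, 3 ≤ N → |SX N - Real.log (Real.log N)| ≤ CM) {T : ℝ} (hT : 3 ≤ T)
    {X : ℕ} (hX : (X : ℝ) ≤ T) : SX X ≤ Real.log (Real.log T) + CM := by
  have hT0 : 0 ≤ T := by linarith
  have h1 : X ≤ ⌊T⌋₊ := Nat.le_floor hX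
  have h2 : 3 ≤ ⌊T⌋₊ := Nat.le_floor (by exact_mod_cast hT)
  have h3 := (abs_le.1 (hCM _ h2)).2
  have h4 : ((⌊T⌋₊ : ℕ) : ℝ) ≤ T := Nat.floor_le hT0
  have h5 : (3 : ℝ) ≤ ((⌊T⌋₊ : ℕ) : ℝ) := by exact_mod_cast h2
  have h6 : 1 < Real.log ((⌊T⌋₊ : ℕ) : ℝ) := by
    rw [Real.lt_log_iff_exp_lt (by linarith)]
    exact Real.exp_one_lt_three.trans_le h5
  have h7 : Real.log (Real.log ((⌊T⌋₊ : ℕ) : ℝ)) ≤ Real.log (Real.log T) :=
    Real.log_le_log (by linarith) (Real.log_le_log (by linarith) h4)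
  have h8 := SX_mono h1
  linarith

/-- the case `k = 0` -/
lemma coh_zero {CM : ℝ} (hCM0 : 0 ≤ CM) (hCM : ∀ N : ℕ, 3 ≤ N → |SX N - Real.log (Real.log N)| ≤ CM)
    (hD : S_DPM) {T : ℝ} (hT : 3 ≤ T) (hS : 3 ≤ Real.log (Real.log T)) {X' : ℕ} (hX' : (X' : ℝ) ≤ T) :
    N2 (X' * 1) (fun n => cv (pc X') (ee 0 1 0) n - ((0 * Real.log (Real.log T) : ℝ) : ℂ) * ee 0 1 0 n) ≤
      (1 + CM) * Real.log (Real.log T) * N2 (1 ^ 0) (ee 0 1 0) := by
  have h1 := est2 0 (X := 1) (K := 0) (X' := X') (M := X' * 1) le_rfl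
  have h2 : PX X' \ PX 1 = PX X' := by
    ext p
    simp only [Finset.mem_sdiff, Finset.mem_filter, Finset.mem_Icc]
    constructor
    · exact fun h => h.1
    · intro h
      refine ⟨h, fun h' => ?_⟩
      have := h.2.one_lt
      omega
  rw [h2] at h1
  have h3 : SX X' ≤ (1 + CM) * Real.log (Real.log T) := by
    have := SX_le hCM hT hX'
    nlinarith
  have h4 : 0 ≤ N2 (1 ^ 0) (ee 0 1 0) := by
    rw [N2_ee]
    exact Finset.sum_nonneg fun _ _ => by positivity
  refine le_trans ?_ (mul_le_mul_of_nonneg_right h3 h4)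
  rw [N2_ee]
  refine le_trans ?_ h1
  unfold N2
  refine Finset.sum_le_sum fun n hn => ?_
  have hn1 := (Finset.mem_Icc.1 hn).1
  have e1 : cv (pc X') (ee 0 1 0) n - ((0 * Real.log (Real.log T) : ℝ) : ℂ) * ee 0 1 0 n =
      ∑ p ∈ (PX X').filter (fun p => p ∣ n), ee 0 1 0 (n / p) := by
    rw [cv_pc X' _ hn1]; simp
  simp only [e1]
  refine div_le_div_of_nonneg_right ?_ (by positivity)
  refine pow_le_pow_left₀ (norm_nonneg _) ((norm_sum_le _ _).trans (le_of_eq ?_)) 2
  exact Finset.sum_congr rfl fun p _ => norm_ee _ _ _ _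

lemma N2_zero : N2 (1 ^ 0) (ee 0 1 0) = 1 := by
  rw [N2_ee]
  simp [EA, LC, ec, ck]

/-- the numbers of the construction -/
lemma sizes {CM : ℝ} (hCM0 : 0 ≤ CM) (hCM : ∀ N : ℕ, 3 ≤ N → |SX N - Real.log (Real.log N)| ≤ CM)
    {A θ T S : ℝ} (hA : 1 ≤ A) (hθ0 : 0 < θ) (hθ1 : θ ≤ 1) (hT : 3 ≤ T) (hST : S = Real.log (Real.log T))
    (hS3 : 3 ≤ S) (hS1 : 84 * A / θ ≤ S) : ∃ K X : ℕ, 1 ≤ K ∧ 20 * A * S ≤ K ∧ 3 ≤ X ∧ (X : ℝ) ≤ T ^ θ ∧
      ((X ^ K : ℕ) : ℝ) ≤ T ^ θ ∧
      |SX X - S| ≤ Real.log S + (Real.log (42 * A) - Real.log θ + CM) := by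
  have hA0 : 0 < A := by linarith
  have hS0 : 0 < S := by linarith
  have hT0 : 0 < T := by linarith
  have hT1 : 1 ≤ T := by linarith
  have hlT : 0 < Real.log T := Real.log_pos (by linarith)
  have hE : Real.exp S = Real.log T := by rw [hST]; exact Real.exp_log hlT
  set K : ℕ := ⌈20 * A * S⌉₊ with hK
  have hK1 : 20 * A * S ≤ K := Nat.le_ceil _
  have hK2 : (K : ℝ) ≤ 21 * A * S := by
    have h1 : (K : ℝ) < 20 * A * S + 1 := Nat.ceil_lt_add_one (by positivity)
    nlinarith
  have hKpos : (0 : ℝ) < K := by nlinarith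
  have hK3 : 1 ≤ K := by
    have : 0 < K := by exact_mod_cast hKpos
    omega
  have hK1' : (1 : ℝ) ≤ K := by exact_mod_cast hK3
  -- `X`
  set Y : ℝ := T ^ (θ / K) with hY
  have hYpos : 0 < Y := Real.rpow_pos_of_pos hT0 _
  have hlY : Real.log Y = θ / K * Real.exp S := by rw [hY, Real.log_rpow hT0, hE]
  have hq : S ^ 2 / 2 ≤ Real.exp S := by
    have := Real.quadratic_le_exp_of_nonneg hS0.le
    linarith
  have hlY2 : 2 ≤ Real.log Y := by
    rw [hlY, div_mul_eq_mul_div, le_div_iff₀ hKpos]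
    have h1 : 84 * A ≤ θ * S := by
      have := (div_le_iff₀ hθ0).1 hS1
      linarith
    have h2 : θ * (S ^ 2 / 2) ≤ θ * Real.exp S := mul_le_mul_of_nonneg_left hq hθ0.le
    nlinarith
  have hY4 : 4 ≤ Y := by
    have h1 : Real.exp 2 ≤ Y := by
      rw [← Real.exp_log hYpos]; exact Real.exp_le_exp.2 hlY2
    have h2 : (4 : ℝ) ≤ Real.exp 2 := by
      have h3 : Real.exp 2 = Real.exp 1 * Real.exp 1 := by rw [← Real.exp_add]; norm_num
      have h4 := Real.exp_one_gt_d9
      rw [h3]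
      nlinarith
    linarith
  set X : ℕ := ⌊Y⌋₊ with hX
  have hX1 : (X : ℝ) ≤ Y := Nat.floor_le hYpos.le
  have hX2 : Y - 1 < X := Nat.sub_one_lt_floor Y
  have hX3 : 3 ≤ X := Nat.le_floor (by push_cast; linarith)
  have hX3' : (3 : ℝ) ≤ X := by exact_mod_cast hX3
  have hXh : Y / 2 ≤ X := by linarith
  have hθK : θ / K ≤ θ := div_le_self hθ0.le hK1'
  have hYT : Y ≤ T ^ θ := Real.rpow_le_rpow_of_exponent_le hT1 hθK
  have hYT1 : Y ≤ T := by
    calc Y ≤ T ^ θ := hYT
      _ ≤ T ^ (1 : ℝ) := Real.rpow_le_rpow_of_exponent_le hT1 hθ1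
      _ = T := Real.rpow_one T
  refine ⟨K, X, hK3, hK1, hX3, hX1.trans hYT, ?_, ?_⟩
  · push_cast
    calc (X : ℝ) ^ K ≤ Y ^ K := pow_le_pow_left₀ (by positivity) hX1 K
      _ = T ^ θ := by
        rw [hY, ← Real.rpow_natCast, ← Real.rpow_mul hT0.le, div_mul_cancel₀ _ hKpos.ne']
  · have hup := SX_le hCM hT (hX1.trans hYT1)
    rw [← hST] at hup
    have hlogS : 0 ≤ Real.log S := Real.log_nonneg (by linarith)
    have hc0 : 0 ≤ Real.log (42 * A) := Real.log_nonneg (by linarith)
    have hc1 : Real.log θ ≤ 0 := Real.log_nonpos hθ0.le hθ1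
    have hlow := (abs_le.1 (hCM X hX3)).1
    have hlX : θ / (2 * K) * Real.exp S ≤ Real.log X := by
      have h1 : Real.log (Y / 2) ≤ Real.log X := Real.log_le_log (by positivity) hXh
      rw [Real.log_div hYpos.ne' two_ne_zero] at h1
      have h2 : Real.log 2 ≤ 1 := by
        have := Real.log_two_lt_d9
        linarith
      have h3 : θ / (2 * K) * Real.exp S = Real.log Y / 2 := by
        rw [hlY]
        field_simp
      rw [h3]
      linarith
    have hpos : 0 < θ / (2 * K) * Real.exp S := by positivity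
    have hll : Real.log θ - Real.log (2 * K) + S ≤ Real.log (Real.log X) := by
      have h1 := Real.log_le_log hpos hlX
      rw [Real.log_mul (by positivity) (Real.exp_pos S).ne', Real.log_exp,
        Real.log_div hθ0.ne' (by positivity)] at h1
      exact h1
    have h2K : Real.log (2 * K) ≤ Real.log (42 * A) + Real.log S := by
      rw [← Real.log_mul (by positivity) hS0.ne']
      exact Real.log_le_log (by positivity) (by linarith)
    rw [abs_le]
    constructor
    · linarith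
    · linarith

/-- Job `COH`. -/
theorem t_COH : J_COH := by
  intro hD hTX k θ hθ0 hθ1
  obtain ⟨CM, hCM'⟩ := Pool.Agent.Helper601.Mertens.mertens_inv
  have hCM : ∀ N : ℕ, 3 ≤ N → |SX N - Real.log (Real.log N)| ≤ CM := hCM'
  have hCM0 : 0 ≤ CM := (abs_nonneg _).trans (hCM 3 le_rfl)
  have hll : Tendsto (fun T : ℝ => Real.log (Real.log T)) atTop atTop :=
    Real.tendsto_log_atTop.comp Real.tendsto_log_atTop
  have hlog1 : ∀ {S : ℝ}, 3 ≤ S → 1 ≤ Real.log S := by
    intro S hS
    rw [Real.le_log_iff_exp_le (by linarith)]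
    exact Real.exp_one_lt_three.le.trans hS
  rcases eq_or_ne k 0 with hk | hk
  · subst hk
    refine ⟨2 + CM, by positivity, ?_⟩
    filter_upwards [hll.eventually_ge_atTop 3, eventually_ge_atTop (3 : ℝ)] with T hS hT
    have hT1 : (1 : ℝ) ≤ T ^ θ := Real.one_le_rpow (by linarith) hθ0.le
    refine ⟨1, 1, ee 0 1 0, le_rfl, by simpa using hT1, by simpa using hT1, fun n hn => ?_, ?_, ?_, ?_⟩
    · simpa using ee_supp le_rfl hn
    · have h1 := N2_zero
      rw [one_pow] at h1
      rw [h1, Real.exp_le_one_iff]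
      have h2 := hlog1 hS
      have h3 : 0 ≤ (2 + CM) * Real.log (Real.log (Real.log T)) := by positivity
      linarith
    · intro t _
      have h1 := dp_ee hD 0 (X := 1) (K := 0) le_rfl t
      rw [one_pow] at h1
      rw [h1]
      simp [TEx]
    · intro X' _ hX'
      constructor
      · have h1 := coh_zero hCM0 hCM hD hT hS hX'
        rw [one_pow] at h1
        refine h1.trans (mul_le_mul_of_nonneg_right ?_ ?_)
        · exact mul_le_mul_of_nonneg_right (by linarith) (by linarith)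
        · rw [N2_ee]
          exact Finset.sum_nonneg fun _ _ => by positivity
      · have h1 := N2_sq 0 (X := 1) (K := 0) (X' := X') (M := X' ^ 2 * 1) le_rfl
        rw [one_pow] at h1
        refine h1.trans (mul_le_mul_of_nonneg_right ?_ ?_)
        · norm_num
          linarith
        · rw [N2_ee]
          exact Finset.sum_nonneg fun _ _ => by positivity
  · set A : ℝ := (|k| + 1) ^ 2 with hA
    have hk0 : 0 ≤ |k| := abs_nonneg k
    have hA1 : 1 ≤ A := by rw [hA]; nlinarith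
    have hkA : k ^ 2 ≤ A := by
      rw [hA, ← sq_abs k]
      exact pow_le_pow_left₀ hk0 (by linarith) 2
    have hkA2 : |k| * (|k| + 1) ≤ A := by rw [hA]; nlinarith
    have hk2 : 0 < k ^ 2 := by positivity
    set C2 : ℝ := Real.log (42 * A) - Real.log θ + CM with hC2
    have hC20 : 0 ≤ C2 := by
      have h1 : 0 ≤ Real.log (42 * A) := Real.log_nonneg (by linarith)
      have h2 : Real.log θ ≤ 0 := Real.log_nonpos hθ0.le hθ1
      rw [hC2]
      linarith
    set G : ℝ := k ^ 2 * (1 + CM) + 4 * k ^ 4 * (1 + C2) ^ 2 with hG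
    have hG0 : 0 ≤ G := by positivity
    set C : ℝ := (k ^ 2 + k ^ 2 * C2 + k ^ 4 + 1) + (16 / k ^ 2 * Real.exp (k ^ 4) * G + 2 * (1 + CM)) +
      (2 + 4 * k ^ 4) with hC
    have hC0 : 0 ≤ C := by positivity
    refine ⟨C, hC0, ?_⟩
    filter_upwards [hll.eventually_ge_atTop (3 + 84 * A / θ + (2 * A * CM + 1 + k ^ 4)),
      eventually_ge_atTop (3 : ℝ)] with T hS hT
    obtain ⟨S, hSd⟩ : ∃ S, S = Real.log (Real.log T) := ⟨_, rfl⟩
    rw [← hSd] at hS ⊢
    have z1 : 0 ≤ 84 * A / θ := by positivity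
    have z2 : 0 ≤ 2 * A * CM + 1 + k ^ 4 := by positivity
    have hS3 : 3 ≤ S := by linarith
    have hS0 : 0 < S := by linarith
    have hS1 : 84 * A / θ ≤ S := by linarith
    have hS2 : 2 * A * CM + 1 + k ^ 4 ≤ S := by linarith
    obtain ⟨K, X, hK1, hK2, hX3, hXT, hNT, hSX⟩ := sizes hCM0 hCM hA1 hθ0 hθ1 hT hSd hS3 hS1
    have hlS := hlog1 hS3
    have hX1 : 1 ≤ X := by omega
    set x : ℝ := k ^ 2 * SX X with hx
    have hSXn := SX_nonneg X
    have hx0 : 0 ≤ x := by positivity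
    have hTθ : T ^ θ ≤ T := by
      calc T ^ θ ≤ T ^ (1 : ℝ) := Real.rpow_le_rpow_of_exponent_le (by linarith) hθ1
        _ = T := Real.rpow_one T
    have hSXu : ∀ {X' : ℕ}, (X' : ℝ) ≤ T → SX X' ≤ S + CM := by
      intro X' hX'
      have := SX_le hCM hT hX'
      rwa [← hSd] at this
    have hxu : x ≤ k ^ 2 * (S + CM) := mul_le_mul_of_nonneg_left (hSXu (hXT.trans hTθ)) hk2.le
    set L : ℝ := N2 (X ^ K) (ee k X K) with hL
    have hL0 : 0 ≤ L := by
      rw [hL, N2_ee]
      exact Finset.sum_nonneg fun _ _ => by positivity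
    -- the lower bound
    have hlow : Real.exp (-k ^ 4) * Real.exp x ≤ 2 * L := by
      have h1 := EA_low k X K hX1
      rw [← N2_ee, ← hL] at h1
      have h2 : Real.exp (-(K : ℝ)) * Real.exp (Real.exp 1 * k ^ 2 * SX X) ≤
          1 / 2 * (Real.exp (-k ^ 4) * Real.exp x) := by
        rw [← Real.exp_add, ← Real.exp_add]
        have h3 : (1 / 2 : ℝ) = Real.exp (-Real.log 2) := by
          rw [Real.exp_neg, Real.exp_log (by norm_num)]; norm_num
        rw [h3, ← Real.exp_add]
        refine Real.exp_le_exp.2 ?_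
        have h4 : Real.log 2 ≤ 1 := by
          have := Real.log_two_lt_d9
          linarith
        have h5 := Real.exp_one_lt_three
        have h6 : Real.exp 1 * k ^ 2 * SX X ≤ 3 * x := by
          rw [mul_assoc]
          exact mul_le_mul_of_nonneg_right h5.le hx0
        have h7 : 2 * x ≤ 2 * (A * (S + CM)) := by
          have : k ^ 2 * (S + CM) ≤ A * (S + CM) := mul_le_mul_of_nonneg_right hkA (by linarith)
          linarith
        have h8 : S ≤ A * S := le_mul_of_one_le_left hS0.le hA1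
        linarith
      have h3 : Real.exp (k ^ 2 * SX X) = Real.exp x := rfl
      rw [h3] at h1
      linarith
    have hexp : Real.exp x ≤ 2 * Real.exp (k ^ 4) * L := by
      have h1 : Real.exp (k ^ 4) * (Real.exp (-k ^ 4) * Real.exp x) = Real.exp x := by
        rw [← mul_assoc, ← Real.exp_add]
        simp
      calc Real.exp x = Real.exp (k ^ 4) * (Real.exp (-k ^ 4) * Real.exp x) := h1.symm
        _ ≤ Real.exp (k ^ 4) * (2 * L) := mul_le_mul_of_nonneg_left hlow (Real.exp_pos _).le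
        _ = _ := by ring
    refine ⟨X, X ^ K, ee k X K, hX1, hXT, hNT, fun n hn => ee_supp hX1 hn, ?_, ?_, ?_⟩
    · -- the size
      have h1 := (abs_le.1 hSX).1
      have h2 : k ^ 2 * (S - Real.log S - C2) ≤ x := mul_le_mul_of_nonneg_left (by linarith) hk2.le
      have h3 : Real.exp (k ^ 2 * S - C * Real.log S) ≤ Real.exp (-Real.log 2) * (Real.exp (-k ^ 4) * Real.exp x) := by
        rw [← Real.exp_add, ← Real.exp_add]
        refine Real.exp_le_exp.2 ?_
        have h4 : Real.log 2 ≤ 1 := by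
          have := Real.log_two_lt_d9
          linarith
        have h5 : (k ^ 2 + k ^ 2 * C2 + k ^ 4 + 1) * Real.log S ≤ C * Real.log S := by
          refine mul_le_mul_of_nonneg_right ?_ (by linarith)
          have i1 : 0 ≤ 16 / k ^ 2 * Real.exp (k ^ 4) * G + 2 * (1 + CM) := by positivity
          have i2 : 0 ≤ 2 + 4 * k ^ 4 := by positivity
          rw [hC]
          linarith
        have h6 : k ^ 2 * C2 + k ^ 4 + 1 ≤ (k ^ 2 * C2 + k ^ 4 + 1) * Real.log S :=
          le_mul_of_one_le_right (by positivity) hlS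
        linarith
      refine h3.trans ?_
      rw [Real.exp_neg, Real.exp_log (by norm_num)]
      linarith
    · -- the pointwise bound
      intro t ht
      rw [dp_ee hD k hX1 t]
      set P := dp X (pc X) t
      have h1 : ‖(k : ℂ) * P‖ ≤ (K : ℝ) / 10 := by
        rw [norm_mul, Complex.norm_real, Real.norm_eq_abs]
        calc |k| * ‖P‖ ≤ |k| * (2 * (|k| + 1) * S) := mul_le_mul_of_nonneg_left ht hk0
          _ = 2 * (|k| * (|k| + 1)) * S := by ring
          _ ≤ 2 * A * S := by gcongr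
          _ ≤ (K : ℝ) / 10 := by linarith
      have h2 := (hTX K ((k : ℂ) * P) hK1).2 h1
      have h3 : Real.exp (-(K : ℝ) / 2) ≤ 1 := by
        rw [Real.exp_le_one_iff]
        have : (0 : ℝ) ≤ K := Nat.cast_nonneg K
        linarith
      have h4 : ‖TEx K ((k : ℂ) * P)‖ ≤ ‖cexp ((k : ℂ) * P)‖ + ‖cexp ((k : ℂ) * P)‖ := by
        have h5 : TEx K ((k : ℂ) * P) = cexp ((k : ℂ) * P) + (TEx K ((k : ℂ) * P) - cexp ((k : ℂ) * P)) := by ring
        rw [h5]
        refine (norm_add_le _ _).trans (add_le_add le_rfl (h2.trans ?_))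
        exact mul_le_of_le_one_left (norm_nonneg _) h3
      have h5 : ‖cexp ((k : ℂ) * P)‖ = Real.exp (k * P.re) := by
        rw [Complex.norm_exp]
        congr 1
        simp
      rw [h5] at h4
      linarith
    · intro X' hXX' hX'T
      constructor
      · -- the eigenvalue equation
        have hb0 : 0 ≤ k * (k * S) := by
          have : k * (k * S) = k ^ 2 * S := by ring
          rw [this]
          positivity
        have hb : 2 * (k * (k * S)) ≤ K + 1 := by
          have e : 2 * (k * (k * S)) = 2 * (k ^ 2 * S) := by ring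
          rw [e]
          have i1 : k ^ 2 * S ≤ A * S := mul_le_mul_of_nonneg_right hkA hS0.le
          have i2 : 0 ≤ A * S := by positivity
          linarith
        have h1 := N2_main hk (X := X) (K := K) (X' := X') (M := X' * X ^ K) hX1 hXX' hb0 hb
        rw [← hL, ← hx] at h1
        refine h1.trans ?_
        have h2 : SX X' ≤ (1 + CM) * S := by
          have i1 := hSXu hX'T
          have i2 : CM ≤ CM * S := le_mul_of_one_le_right hCM0 (by linarith)
          linarith
        have h3 : x ≤ k ^ 2 * (1 + CM) * S := by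
          have i1 : S + CM ≤ (1 + CM) * S := by
            have i2 : CM ≤ CM * S := le_mul_of_one_le_right hCM0 (by linarith)
            linarith
          calc x ≤ k ^ 2 * (S + CM) := hxu
            _ ≤ k ^ 2 * ((1 + CM) * S) := mul_le_mul_of_nonneg_left i1 hk2.le
            _ = _ := by ring
        have h4 : (x - k * (k * S)) ^ 2 ≤ 4 * k ^ 4 * (1 + C2) ^ 2 * S := by
          have e : (x - k * (k * S)) ^ 2 = k ^ 4 * (SX X - S) ^ 2 := by rw [hx]; ring
          have h5 : (SX X - S) ^ 2 ≤ ((1 + C2) * Real.log S) ^ 2 := by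
            rw [← sq_abs]
            refine pow_le_pow_left₀ (abs_nonneg _) (hSX.trans ?_) 2
            have i2 : C2 ≤ C2 * Real.log S := le_mul_of_one_le_right hC20 hlS
            linarith
          have h6 : Real.log S ^ 2 ≤ 4 * S := by
            have h7 : Real.log S ≤ 2 * Real.sqrt S := by
              have h8 := Real.log_le_sub_one_of_pos (Real.sqrt_pos.2 hS0)
              rw [Real.log_sqrt hS0.le] at h8
              linarith
            calc Real.log S ^ 2 ≤ (2 * Real.sqrt S) ^ 2 := pow_le_pow_left₀ (by linarith) h7 2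
              _ = 4 * S := by rw [mul_pow, Real.sq_sqrt hS0.le]; ring
          rw [e]
          calc k ^ 4 * (SX X - S) ^ 2 ≤ k ^ 4 * ((1 + C2) * Real.log S) ^ 2 := by gcongr
            _ = k ^ 4 * (1 + C2) ^ 2 * Real.log S ^ 2 := by ring
            _ ≤ k ^ 4 * (1 + C2) ^ 2 * (4 * S) := by gcongr
            _ = _ := by ring
        have h5 : x + (x - k * (k * S)) ^ 2 ≤ G * S := by rw [hG, add_mul]; linarith
        have h6 : Real.exp x * (x + (x - k * (k * S)) ^ 2) ≤ 2 * Real.exp (k ^ 4) * L * (G * S) :=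
          mul_le_mul hexp h5 (by positivity) (by positivity)
        have h7 : 2 * (4 / k ^ 2 * (Real.exp x * (x + (x - k * (k * S)) ^ 2))) ≤
            16 / k ^ 2 * Real.exp (k ^ 4) * G * S * L := by
          calc 2 * (4 / k ^ 2 * (Real.exp x * (x + (x - k * (k * S)) ^ 2))) ≤
              2 * (4 / k ^ 2 * (2 * Real.exp (k ^ 4) * L * (G * S))) := by gcongr
            _ = _ := by ring
        have h8 : 2 * (SX X' * L) ≤ 2 * (1 + CM) * S * L := by
          have := mul_le_mul_of_nonneg_right h2 hL0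
          linarith
        have h9 : (16 / k ^ 2 * Real.exp (k ^ 4) * G + 2 * (1 + CM)) * (S * L) ≤ C * (S * L) := by
          refine mul_le_mul_of_nonneg_right ?_ (by positivity)
          have i1 : 0 ≤ k ^ 2 + k ^ 2 * C2 + k ^ 4 + 1 := by positivity
          have i2 : 0 ≤ 2 + 4 * k ^ 4 := by positivity
          rw [hC]
          linarith
        calc _ ≤ 16 / k ^ 2 * Real.exp (k ^ 4) * G * S * L + 2 * (1 + CM) * S * L := add_le_add h7 h8
          _ = (16 / k ^ 2 * Real.exp (k ^ 4) * G + 2 * (1 + CM)) * (S * L) := by ring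
          _ ≤ C * (S * L) := h9
          _ = _ := by ring
      · refine (N2_sq k (X := X) (K := K) (X' := X') (M := X' ^ 2 * X ^ K) hX1).trans ?_
        rw [← hL]
        refine mul_le_mul_of_nonneg_right ?_ hL0
        have i1 : 0 ≤ k ^ 2 + k ^ 2 * C2 + k ^ 4 + 1 := by positivity
        have i2 : 0 ≤ 16 / k ^ 2 * Real.exp (k ^ 4) * G + 2 * (1 + CM) := by positivity
        rw [hC]
        linarith

end

end Pool.Agent.Q38.UM
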