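import Pool.Agent.Q97.UM.Stm22
import Pool.Agent.Q190.UM.PWK

set_option autoImplicit false

/-! Project UM16 (helper97), job COH, part 1: linear combinations of the powers of the prime sum. -/

namespace Pool.Agent.Q38.UM

open Filter Topology Complex
open Pool.Agent.Q97.UM Pool.Agent.Q190.UM

noncomputable section

/-- a linear combination of the first `J` powers -/
def LC (c : ℕ → ℝ) (X J : ℕ) (n : ℕ) : ℝ := ∑ r ∈ Finset.range J, c r * (ck X r n : ℝ)

lemma ck_unique {X r s n : ℕ} (h : ck X r n ≠ 0) (h' : ck X s n ≠ 0) : r = s := by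
  obtain ⟨_, _, h1, _⟩ := ck_supp h
  obtain ⟨_, _, h2, _⟩ := ck_supp h'
  rw [← h1, ← h2]

lemma LC_sq (c : ℕ → ℝ) (X J n : ℕ) : LC c X J n ^ 2 = ∑ r ∈ Finset.range J, c r ^ 2 * (ck X r n : ℝ) ^ 2 := by
  unfold LC
  by_cases h : ∃ r ∈ Finset.range J, ck X r n ≠ 0
  · obtain ⟨r, hr, hne⟩ := h
    have h0 : ∀ s, s ≠ r → ck X s n = 0 := by
      intro s hs
      by_contra hne'
      exact hs (ck_unique hne' hne)
    rw [Finset.sum_eq_single_of_mem r hr fun s _ hs => by rw [h0 s hs]; simp,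
      Finset.sum_eq_single_of_mem r hr fun s _ hs => by rw [h0 s hs]; simp]
    ring
  · push Not at h
    rw [Finset.sum_eq_zero fun r hr => by rw [h r hr]; simp,
      Finset.sum_eq_zero fun r hr => by rw [h r hr]; simp]
    simp

lemma LC_supp {c : ℕ → ℝ} {X J n : ℕ} (hX : 1 ≤ X) (h : LC c X J n ≠ 0) : 1 ≤ n ∧ n ≤ X ^ (J - 1) ∧
    ∀ p : ℕ, p.Prime → p ∣ n → p ≤ X := by
  obtain ⟨r, hr, hne⟩ := Finset.exists_ne_zero_of_sum_ne_zero h
  have h1 : ck X r n ≠ 0 := by
    intro h0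
    exact hne (by rw [h0]; simp)
  obtain ⟨i1, i2, _, i4⟩ := ck_supp h1
  have hr' := Finset.mem_range.1 hr
  exact ⟨i1, i2.trans (Nat.pow_le_pow_right hX (by omega)), i4⟩

lemma sum_ck_le (X r N : ℕ) : ∑ n ∈ Finset.Icc 1 N, (ck X r n : ℝ) ^ 2 / n ≤ r.factorial * SX X ^ r := by
  have h1 : ∑ n ∈ Finset.Icc 1 N, (ck X r n : ℝ) ^ 2 / n ≤
      ∑ n ∈ Finset.Icc 1 N, (r.factorial : ℝ) * ((ck X r n : ℝ) / n) := by
    refine Finset.sum_le_sum fun n _ => ?_
    have h2 : (ck X r n : ℝ) ≤ r.factorial := by exact_mod_cast ck_le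
    calc (ck X r n : ℝ) ^ 2 / n = (ck X r n : ℝ) * ((ck X r n : ℝ) / n) := by ring
      _ ≤ _ := mul_le_mul_of_nonneg_right h2 (by positivity)
  refine h1.trans ?_
  rw [← Finset.mul_sum]
  refine mul_le_mul_of_nonneg_left ?_ (by positivity)
  have h3 := sum_ck X r (fun _ => 1)
  rw [EE_one] at h3
  rw [← h3]
  have h4 : ∀ n ∈ Finset.Icc 1 (X ^ r), (ck X r n : ℝ) / n * 1 = (ck X r n : ℝ) / n := fun n _ => mul_one _
  rw [Finset.sum_congr rfl h4]
  rw [← Finset.sum_filter_add_sum_filter_not (Finset.Icc 1 N) (fun n => n ≤ X ^ r)]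
  have h5 : ∑ n ∈ (Finset.Icc 1 N).filter (fun n => ¬ n ≤ X ^ r), (ck X r n : ℝ) / n = 0 := by
    refine Finset.sum_eq_zero fun n hn => ?_
    rw [Finset.mem_filter] at hn
    have : ck X r n = 0 := by
      by_contra hne
      exact hn.2 (ck_supp hne).2.1
    rw [this]; simp
  rw [h5, add_zero]
  refine Finset.sum_le_sum_of_subset_of_nonneg ?_ fun _ _ _ => by positivity
  intro n hn
  rw [Finset.mem_filter, Finset.mem_Icc] at hn
  rw [Finset.mem_Icc]
  exact ⟨hn.1.1, hn.2⟩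

lemma norm_sq_real (y : ℝ) : ‖(y : ℂ)‖ ^ 2 = y ^ 2 := by
  rw [Complex.norm_real, Real.norm_eq_abs, sq_abs]

lemma N2_real (N : ℕ) (f : ℕ → ℝ) : N2 N (fun n => (f n : ℂ)) = ∑ n ∈ Finset.Icc 1 N, f n ^ 2 / n := by
  unfold N2
  exact Finset.sum_congr rfl fun n _ => by rw [norm_sq_real]

lemma N2_LC_le (c : ℕ → ℝ) (X J N : ℕ) : ∑ n ∈ Finset.Icc 1 N, LC c X J n ^ 2 / n ≤
    ∑ r ∈ Finset.range J, c r ^ 2 * (r.factorial * SX X ^ r) := by
  have h1 : ∀ n ∈ Finset.Icc 1 N, LC c X J n ^ 2 / n =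
      ∑ r ∈ Finset.range J, c r ^ 2 * ((ck X r n : ℝ) ^ 2 / n) := by
    intro n _
    rw [LC_sq, Finset.sum_div]
    exact Finset.sum_congr rfl fun r _ => by ring
  rw [Finset.sum_congr rfl h1, Finset.sum_comm]
  refine Finset.sum_le_sum fun r _ => ?_
  rw [← Finset.mul_sum]
  exact mul_le_mul_of_nonneg_left (sum_ck_le X r N) (sq_nonneg _)

/-- coefficients of the truncated exponential -/
def ec (k : ℝ) (r : ℕ) : ℝ := k ^ r / r.factorial

/-- the absolute value of the coefficients of the coherent state -/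
def EA (k : ℝ) (X K n : ℕ) : ℝ := LC (ec |k|) X (K + 1) n

lemma EA_nonneg (k : ℝ) (X K n : ℕ) : 0 ≤ EA k X K n := by
  unfold EA LC ec
  exact Finset.sum_nonneg fun r _ => by positivity

lemma abs_LC (k : ℝ) (X K n : ℕ) : |LC (ec k) X (K + 1) n| = EA k X K n := by
  have h1 : LC (ec k) X (K + 1) n ^ 2 = EA k X K n ^ 2 := by
    unfold EA
    rw [LC_sq, LC_sq]
    refine Finset.sum_congr rfl fun r _ => ?_
    unfold ec
    rw [div_pow, div_pow, ← pow_mul, ← pow_mul, mul_comm r 2, pow_mul, pow_mul, sq_abs]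
  rw [← abs_of_nonneg (EA_nonneg k X K n)]
  exact (sq_eq_sq_iff_abs_eq_abs _ _).1 h1

/-- multiplication by a prime -/
lemma ck_mul_le {X q : ℕ} (hq : q.Prime) (r n : ℕ) : ck X (r + 1) (q * n) ≤ (r + 1) * ck X r n := by
  rcases Nat.eq_zero_or_pos n with hn | hn
  · subst hn
    rw [mul_zero, ck_zero]
    exact Nat.zero_le _
  induction r generalizing n with
  | zero =>
    simp only [ck, zero_add, one_mul]
    by_cases h1 : n = 1
    · subst h1
      rw [mul_one, if_pos rfl, Finset.sum_ite, Finset.sum_const_zero, add_zero, Finset.sum_const, smul_eq_mul,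
        mul_one]
      rw [Finset.card_le_one]
      intro a ha b hb
      rw [Finset.mem_filter, Finset.mem_filter, Finset.mem_filter] at ha hb
      have e1 : a = q := (Nat.prime_dvd_prime_iff_eq ha.1.1.2 hq).1 ha.1.2
      have e2 : b = q := (Nat.prime_dvd_prime_iff_eq hb.1.1.2 hq).1 hb.1.2
      rw [e1, e2]
    · rw [if_neg h1]
      refine le_of_eq (Finset.sum_eq_zero fun p hp => ?_)
      rw [Finset.mem_filter, Finset.mem_filter] at hp
      rw [if_neg]
      intro h2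
      have h3 : q * n = p := by
        have := Nat.div_mul_cancel hp.2
        rw [h2, one_mul] at this
        exact this.symm
      have h4 : Nat.Prime (q * n) := h3 ▸ hp.1.2
      have h5 := Nat.prime_mul_iff.1 h4
      rcases h5 with ⟨_, h6⟩ | ⟨_, h6⟩
      · exact h1 h6
      · exact hq.one_lt.ne' h6
  | succ r ih =>
    have hstep : ck X (r + 1 + 1) (q * n) = ∑ p ∈ (PX X).filter (fun p => p ∣ q * n), ck X (r + 1) (q * n / p) := rfl
    have hn1 : ck X (r + 1) n = ∑ p ∈ (PX X).filter (fun p => p ∣ n), ck X r (n / p) := rfl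
    rw [hstep]
    have hsub : (PX X).filter (fun p => p ∣ q * n) ⊆
        insert q ((PX X).filter (fun p => p ∣ n)) := by
      intro p hp
      rw [Finset.mem_filter] at hp
      rw [Finset.mem_insert, Finset.mem_filter]
      have hpp : p.Prime := (Finset.mem_filter.1 hp.1).2
      rcases (Nat.Prime.dvd_mul hpp).1 hp.2 with h1 | h1
      · left; exact (Nat.prime_dvd_prime_iff_eq hpp hq).1 h1
      · right; exact ⟨hp.1, h1⟩
    refine (Finset.sum_le_sum_of_subset hsub).trans ?_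
    have hterm : ∀ p ∈ (PX X).filter (fun p => p ∣ n), ck X (r + 1) (q * n / p) ≤ (r + 1) * ck X r (n / p) := by
      intro p hp
      rw [Finset.mem_filter] at hp
      have hpp : p.Prime := (Finset.mem_filter.1 hp.1).2
      have h2 : q * n / p = q * (n / p) := Nat.mul_div_assoc _ hp.2
      rw [h2]
      exact ih (n / p) (Nat.div_pos (Nat.le_of_dvd hn hp.2) hpp.pos)
    have hq' : q * n / q = n := Nat.mul_div_cancel_left n hq.pos
    by_cases hqm : q ∈ (PX X).filter (fun p => p ∣ n)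
    · -- `q` is counted once
      rw [Finset.insert_eq_of_mem hqm, ← Finset.add_sum_erase _ _ hqm, hq']
      have h3 : ∑ p ∈ ((PX X).filter (fun p => p ∣ n)).erase q, ck X (r + 1) (q * n / p) ≤
          (r + 1) * ck X (r + 1) n := by
        rw [hn1, Finset.mul_sum]
        refine (Finset.sum_le_sum fun p hp => hterm p (Finset.mem_of_mem_erase hp)).trans ?_
        exact Finset.sum_le_sum_of_subset (Finset.erase_subset _ _)
      linarith
    · rw [Finset.sum_insert hqm, hq']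
      have h3 : ∑ p ∈ (PX X).filter (fun p => p ∣ n), ck X (r + 1) (q * n / p) ≤ (r + 1) * ck X (r + 1) n := by
        rw [hn1, Finset.mul_sum]
        exact Finset.sum_le_sum hterm
      linarith

lemma EA_mul_le (k : ℝ) (X K : ℕ) {q : ℕ} (hq : q.Prime) (n : ℕ) : EA k X K (q * n) ≤ |k| * EA k X K n := by
  unfold EA LC
  rw [Finset.sum_range_succ' _ K, Finset.mul_sum]
  have h0 : ck X 0 (q * n) = 0 := by
    simp only [ck]
    rw [if_neg]
    intro h
    have := Nat.dvd_one.1 ⟨n, h.symm⟩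
    exact hq.one_lt.ne' this
  rw [h0, Nat.cast_zero, mul_zero, add_zero, Finset.sum_range_succ]
  have h1 : ∀ r ∈ Finset.range K, ec |k| (r + 1) * (ck X (r + 1) (q * n) : ℝ) ≤ |k| * (ec |k| r * (ck X r n : ℝ)) := by
    intro r _
    have h2 : (ck X (r + 1) (q * n) : ℝ) ≤ (r + 1) * ck X r n := by exact_mod_cast ck_mul_le hq r n
    unfold ec
    calc |k| ^ (r + 1) / ((r + 1).factorial : ℝ) * (ck X (r + 1) (q * n) : ℝ)
        ≤ |k| ^ (r + 1) / ((r + 1).factorial : ℝ) * ((r + 1) * ck X r n) :=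
          mul_le_mul_of_nonneg_left h2 (by positivity)
      _ = |k| * (|k| ^ r / (r.factorial : ℝ) * ck X r n) := by
          rw [Nat.factorial_succ]
          push_cast
          have : (r.factorial : ℝ) ≠ 0 := by positivity
          field_simp
          ring
  have h3 := Finset.sum_le_sum h1
  have h4 : 0 ≤ |k| * (ec |k| K * (ck X K n : ℝ)) := by
    unfold ec
    positivity
  linarith

lemma EA_sq_mul_le (k : ℝ) (X K : ℕ) {q : ℕ} (hq : q.Prime) (n : ℕ) :
    EA k X K (q ^ 2 * n) ≤ k ^ 2 * EA k X K n := by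
  have h1 := EA_mul_le k X K hq (q * n)
  have h2 := EA_mul_le k X K hq n
  rw [← mul_assoc, ← pow_two] at h1
  calc EA k X K (q ^ 2 * n) ≤ |k| * EA k X K (q * n) := h1
    _ ≤ |k| * (|k| * EA k X K n) := mul_le_mul_of_nonneg_left h2 (abs_nonneg k)
    _ = k ^ 2 * EA k X K n := by rw [← mul_assoc, ← pow_two, sq_abs]

lemma EA_supp {k : ℝ} {X K n : ℕ} (hX : 1 ≤ X) (h : EA k X K n ≠ 0) : 1 ≤ n ∧ n ≤ X ^ K ∧
    ∀ p : ℕ, p.Prime → p ∣ n → p ≤ X := by
  have := LC_supp hX h
  rwa [Nat.add_sub_cancel] at this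

/-- sums over multiples -/
lemma conv1 {ι : Type} (s : Finset ι) (a : ι → ℕ) (ha : ∀ i ∈ s, 1 ≤ a i) (F : ι → ℕ → ℝ)
    (hF0 : ∀ i m, 0 ≤ F i m) (N M : ℕ) (hF : ∀ i m, F i m ≠ 0 → 1 ≤ m ∧ m ≤ N) :
    ∑ n ∈ Finset.Icc 1 M, (∑ i ∈ s.filter (fun i => a i ∣ n), F i (n / a i)) / n ≤
      ∑ i ∈ s, 1 / (a i : ℝ) * ∑ m ∈ Finset.Icc 1 N, F i m / m := by
  have h1 : ∀ n ∈ Finset.Icc 1 M, (∑ i ∈ s.filter (fun i => a i ∣ n), F i (n / a i)) / n =
      ∑ i ∈ s, if a i ∣ n then F i (n / a i) / n else 0 := by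
    intro n _
    rw [Finset.sum_div, Finset.sum_filter]
  rw [Finset.sum_congr rfl h1, Finset.sum_comm]
  refine Finset.sum_le_sum fun i hi => ?_
  have hai := ha i hi
  have hai0 : (0 : ℝ) < a i := by exact_mod_cast hai
  rw [← Finset.sum_filter, Finset.mul_sum]
  have h2 : ∑ n ∈ (Finset.Icc 1 M).filter (fun n => a i ∣ n), F i (n / a i) / n =
      ∑ m ∈ ((Finset.Icc 1 M).filter (fun n => a i ∣ n)).image (fun n => n / a i),
        1 / (a i : ℝ) * (F i m / m) := by
    rw [Finset.sum_image]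
    · refine Finset.sum_congr rfl fun n hn => ?_
      rw [Finset.mem_filter, Finset.mem_Icc] at hn
      obtain ⟨c, hc⟩ := hn.2
      rw [hc, Nat.mul_div_cancel_left c hai]
      push_cast
      rw [div_mul_div_comm, one_mul]
    · intro x hx y hy hxy
      have hx' := (Finset.mem_filter.1 hx).2
      have hy' := (Finset.mem_filter.1 hy).2
      have hxy' : x / a i = y / a i := hxy
      rw [← Nat.div_mul_cancel hx', ← Nat.div_mul_cancel hy', hxy']
  rw [h2, ← Finset.sum_filter_add_sum_filter_not _ (fun m => F i m ≠ 0)]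
  have h3 : ∑ m ∈ (((Finset.Icc 1 M).filter (fun n => a i ∣ n)).image (fun n => n / a i)).filter
      (fun m => ¬ F i m ≠ 0), 1 / (a i : ℝ) * (F i m / m) = 0 := by
    refine Finset.sum_eq_zero fun m hm => ?_
    have := (Finset.mem_filter.1 hm).2
    push Not at this
    rw [this]; simp
  rw [h3, add_zero]
  refine Finset.sum_le_sum_of_subset_of_nonneg ?_ fun m _ _ => ?_
  · intro m hm
    have := hF i m (Finset.mem_filter.1 hm).2
    exact Finset.mem_Icc.2 this
  · have := hF0 i m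
    positivity

end

end Pool.Agent.Q38.UM
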