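import Pool.Agent.Q38.UM.COHa

set_option autoImplicit false

/-! Project UM16 (helper97), job COH, part 2: lower bound for the norm, moments of the Poisson distribution. -/

namespace Pool.Agent.Q38.UM

open Filter Topology Complex
open Pool.Agent.Q97.UM Pool.Agent.Q190.UM

noncomputable section

lemma one_add_ge {x : ℝ} (hx : 0 ≤ x) : Real.exp (x - x ^ 2 / 2) ≤ 1 + x := by
  have h1 : x - x ^ 2 / 2 ≤ Real.log (1 + x) := by
    refine le_trans ?_ (Real.le_log_one_add_of_nonneg hx)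
    rw [le_div_iff₀ (by positivity)]
    nlinarith [pow_nonneg hx 3]
  calc Real.exp (x - x ^ 2 / 2) ≤ Real.exp (Real.log (1 + x)) := Real.exp_le_exp.2 h1
    _ = 1 + x := Real.exp_log (by positivity)

lemma prod_ge (k : ℝ) (X : ℕ) :
    Real.exp (-k ^ 4) * Real.exp (k ^ 2 * SX X) ≤ ∏ p ∈ PX X, (1 + k ^ 2 / (p : ℝ)) := by
  have h1 : ∏ p ∈ PX X, Real.exp (k ^ 2 / (p : ℝ) - (k ^ 2 / (p : ℝ)) ^ 2 / 2) ≤
      ∏ p ∈ PX X, (1 + k ^ 2 / (p : ℝ)) :=
    Finset.prod_le_prod (fun _ _ => (Real.exp_pos _).le) fun p _ => one_add_ge (by positivity)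
  refine le_trans ?_ h1
  rw [← Real.exp_sum, ← Real.exp_add]
  refine Real.exp_le_exp.2 ?_
  rw [Finset.sum_sub_distrib]
  have h2 : ∑ p ∈ PX X, k ^ 2 / (p : ℝ) = k ^ 2 * SX X := by
    unfold SX
    rw [Finset.mul_sum]
    exact Finset.sum_congr rfl fun p _ => by ring
  have h3 : ∑ p ∈ PX X, (k ^ 2 / (p : ℝ)) ^ 2 / 2 = k ^ 4 / 2 * PP2 X := by
    unfold PP2
    rw [Finset.mul_sum]
    exact Finset.sum_congr rfl fun p _ => by ring
  have h4 := PP2_le X
  have h5 : k ^ 4 / 2 * PP2 X ≤ k ^ 4 / 2 * 2 := mul_le_mul_of_nonneg_left h4 (by positivity)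
  rw [h2, h3]
  linarith

lemma prod_le (x : ℝ) (hx : 0 ≤ x) (X : ℕ) : ∏ p ∈ PX X, (1 + x / (p : ℝ)) ≤ Real.exp (x * SX X) := by
  have h1 : ∏ p ∈ PX X, (1 + x / (p : ℝ)) ≤ ∏ p ∈ PX X, Real.exp (x / (p : ℝ)) :=
    Finset.prod_le_prod (fun p _ => by positivity) fun p _ => by
      have := Real.add_one_le_exp (x / (p : ℝ))
      linarith
  refine h1.trans (le_of_eq ?_)
  rw [← Real.exp_sum]
  congr 1
  unfold SX
  rw [Finset.mul_sum]
  exact Finset.sum_congr rfl fun p _ => by ring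

lemma sqf_prod {t : Finset ℕ} (ht : ∀ p ∈ t, p.Prime) : Squarefree (∏ p ∈ t, p) := by
  classical
  induction t using Finset.induction_on with
  | empty => simp
  | insert q t hq ih =>
    rw [Finset.prod_insert hq]
    have hq' := ht q (Finset.mem_insert_self q t)
    refine (Nat.squarefree_mul ?_).2 ⟨hq'.squarefree, ih fun p hp => ht p (Finset.mem_insert_of_mem hp)⟩
    refine Nat.Coprime.prod_right fun p hp => ?_
    refine (Nat.coprime_primes hq' (ht p (Finset.mem_insert_of_mem hp))).2 ?_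
    rintro rfl
    exact hq hp

lemma ck_prod {X : ℕ} {t : Finset ℕ} (ht : t ⊆ PX X) : ck X t.card (∏ p ∈ t, p) = t.card.factorial := by
  have hp : ∀ p ∈ t, p.Prime := fun p h => (Finset.mem_filter.1 (ht h)).2
  have hs := sqf_prod hp
  have h0 := hs.ne_zero
  refine ck_sqf hs ?_ fun p hpp hd => ?_
  · have h1 := Nat.primeFactors_prod hp
    rw [← List.toFinset_card_of_nodup ((Nat.squarefree_iff_nodup_primeFactorsList h0).1 hs)]
    rw [← h1]
    congr 1
    rw [h1]
    exact h1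
  · have h1 : p ∈ (∏ p ∈ t, p).primeFactors := Nat.mem_primeFactors.2 ⟨hpp, hd, h0⟩
    rw [Nat.primeFactors_prod hp] at h1
    exact (Finset.mem_Icc.1 (Finset.mem_filter.1 (ht h1)).1).2

/-- the lower bound for the norm of the coherent state -/
lemma EA_low (k : ℝ) (X K : ℕ) (hX : 1 ≤ X) : Real.exp (-k ^ 4) * Real.exp (k ^ 2 * SX X) ≤
    ∑ n ∈ Finset.Icc 1 (X ^ K), EA k X K n ^ 2 / n +
      Real.exp (-(K : ℝ)) * Real.exp (Real.exp 1 * k ^ 2 * SX X) := by
  classical
  refine (prod_ge k X).trans ?_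
  rw [Finset.prod_one_add, ← Finset.sum_filter_add_sum_filter_not _ (fun t : Finset ℕ => t.card ≤ K)]
  refine add_le_add ?_ ?_
  · have h1 : ∀ t ∈ ((PX X).powerset).filter (fun t => t.card ≤ K),
        ∏ p ∈ t, k ^ 2 / (p : ℝ) ≤ EA k X K (∏ p ∈ t, p) ^ 2 / ((∏ p ∈ t, p : ℕ) : ℝ) := by
      intro t ht
      rw [Finset.mem_filter, Finset.mem_powerset] at ht
      have h2 : |k| ^ t.card ≤ EA k X K (∏ p ∈ t, p) := by
        unfold EA LC
        have h3 : ec |k| t.card * (ck X t.card (∏ p ∈ t, p) : ℝ) = |k| ^ t.card := by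
          rw [ck_prod ht.1]
          unfold ec
          have : (t.card.factorial : ℝ) ≠ 0 := by positivity
          field_simp
        rw [← h3]
        refine Finset.single_le_sum (f := fun r => ec |k| r * (ck X r (∏ p ∈ t, p) : ℝ)) (fun r _ => ?_) ?_
        · unfold ec; positivity
        · rw [Finset.mem_range]; omega
      rw [Finset.prod_div_distrib, Finset.prod_const, Nat.cast_prod]
      refine div_le_div_of_nonneg_right ?_ (by positivity)
      calc (k ^ 2) ^ t.card = (|k| ^ t.card) ^ 2 := by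
            rw [← sq_abs k, ← pow_mul, ← pow_mul, mul_comm]
        _ ≤ _ := pow_le_pow_left₀ (by positivity) h2 2
    refine (Finset.sum_le_sum h1).trans ?_
    have h4 : ∑ t ∈ ((PX X).powerset).filter (fun t => t.card ≤ K),
        EA k X K (∏ p ∈ t, p) ^ 2 / ((∏ p ∈ t, p : ℕ) : ℝ) =
        ∑ n ∈ (((PX X).powerset).filter (fun t => t.card ≤ K)).image (fun t => ∏ p ∈ t, p),
          EA k X K n ^ 2 / (n : ℝ) := by
      rw [Finset.sum_image]
      intro s hs t ht hst
      have hs' : ∀ p ∈ s, p.Prime := fun p h =>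
        (Finset.mem_filter.1 (Finset.mem_powerset.1 (Finset.mem_filter.1 hs).1 h)).2
      have ht' : ∀ p ∈ t, p.Prime := fun p h =>
        (Finset.mem_filter.1 (Finset.mem_powerset.1 (Finset.mem_filter.1 ht).1 h)).2
      have hst' : ∏ p ∈ s, p = ∏ p ∈ t, p := hst
      rw [← Nat.primeFactors_prod hs', hst', Nat.primeFactors_prod ht']
    rw [h4]
    refine Finset.sum_le_sum_of_subset_of_nonneg ?_ fun _ _ _ => by positivity
    intro n hn
    obtain ⟨t, ht, rfl⟩ := Finset.mem_image.1 hn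
    rw [Finset.mem_filter, Finset.mem_powerset] at ht
    have h5 : ck X t.card (∏ p ∈ t, p) ≠ 0 := by
      rw [ck_prod ht.1]; exact Nat.factorial_ne_zero _
    obtain ⟨i1, i2, _⟩ := ck_supp h5
    exact Finset.mem_Icc.2 ⟨i1, i2.trans (Nat.pow_le_pow_right hX ht.2)⟩
  · have h1 : ∀ t ∈ ((PX X).powerset).filter (fun t => ¬ t.card ≤ K),
        ∏ p ∈ t, k ^ 2 / (p : ℝ) ≤ Real.exp (-(K : ℝ)) * ∏ p ∈ t, (Real.exp 1 * k ^ 2) / (p : ℝ) := by
      intro t ht
      rw [Finset.mem_filter] at ht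
      have h2 : ∏ p ∈ t, (Real.exp 1 * k ^ 2) / (p : ℝ) = Real.exp t.card * ∏ p ∈ t, k ^ 2 / (p : ℝ) := by
        have h3 : ∀ p ∈ t, (Real.exp 1 * k ^ 2) / (p : ℝ) = Real.exp 1 * (k ^ 2 / (p : ℝ)) := fun p _ => by ring
        rw [Finset.prod_congr rfl h3, Finset.prod_mul_distrib, Finset.prod_const, ← Real.exp_nat_mul, mul_one]
      rw [h2, ← mul_assoc, ← Real.exp_add]
      have h4 : (1 : ℝ) ≤ Real.exp (-(K : ℝ) + t.card) := by
        have : (K : ℝ) ≤ t.card := by
          have := ht.2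
          exact_mod_cast (by omega : K ≤ t.card)
        exact Real.one_le_exp (by linarith)
      have h5 : 0 ≤ ∏ p ∈ t, k ^ 2 / (p : ℝ) := Finset.prod_nonneg fun p _ => by positivity
      nlinarith
    refine (Finset.sum_le_sum h1).trans ?_
    rw [← Finset.mul_sum]
    refine mul_le_mul_of_nonneg_left ?_ (Real.exp_pos _).le
    refine (Finset.sum_le_sum_of_subset_of_nonneg (Finset.filter_subset _ _) fun t _ _ =>
      Finset.prod_nonneg fun p _ => by positivity).trans ?_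
    rw [← Finset.prod_one_add]
    exact prod_le _ (by positivity) X

/-- second moments of the Poisson distribution -/
lemma pois (x b : ℝ) (hx : 0 ≤ x) (J : ℕ) :
    ∑ j ∈ Finset.range J, ((j : ℝ) - b) ^ 2 * (x ^ j / j.factorial) ≤ Real.exp x * (x + (x - b) ^ 2) := by
  have h0 : HasSum (fun n : ℕ => x ^ n / (n.factorial : ℝ)) (Real.exp x) := by
    rw [Real.exp_eq_exp_ℝ]
    exact NormedSpace.expSeries_div_hasSum_exp x
  have h1 : HasSum (fun n : ℕ => (n : ℝ) * (x ^ n / (n.factorial : ℝ))) (x * Real.exp x) := by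
    have a := h0.mul_left x
    have e : (fun n : ℕ => ((n + 1 : ℕ) : ℝ) * (x ^ (n + 1) / ((n + 1).factorial : ℝ))) =
        fun n : ℕ => x * (x ^ n / (n.factorial : ℝ)) := by
      funext n
      rw [Nat.factorial_succ]
      push_cast
      have : (n.factorial : ℝ) ≠ 0 := by positivity
      field_simp
      ring
    rw [← e] at a
    have c := (hasSum_nat_add_iff (f := fun n : ℕ => (n : ℝ) * (x ^ n / (n.factorial : ℝ))) 1).1 a
    simpa using c
  have h2 : HasSum (fun n : ℕ => (n : ℝ) * (n - 1) * (x ^ n / (n.factorial : ℝ))) (x ^ 2 * Real.exp x) := by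
    have a := h1.mul_left x
    have e : (fun n : ℕ => ((n + 1 : ℕ) : ℝ) * (((n + 1 : ℕ) : ℝ) - 1) * (x ^ (n + 1) / ((n + 1).factorial : ℝ))) =
        fun n : ℕ => x * ((n : ℝ) * (x ^ n / (n.factorial : ℝ))) := by
      funext n
      rw [Nat.factorial_succ]
      push_cast
      have : (n.factorial : ℝ) ≠ 0 := by positivity
      field_simp
      ring
    rw [← e] at a
    have c := (hasSum_nat_add_iff (f := fun n : ℕ => (n : ℝ) * (n - 1) * (x ^ n / (n.factorial : ℝ))) 1).1 a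
    rw [Finset.sum_range_one, Nat.cast_zero, zero_mul, zero_mul, add_zero, ← mul_assoc, ← pow_two] at c
    exact c
  have h3 := (h2.add (h1.mul_left (1 - 2 * b))).add (h0.mul_left (b ^ 2))
  have e3 : (fun j : ℕ => (j : ℝ) * (j - 1) * (x ^ j / (j.factorial : ℝ)) +
      (1 - 2 * b) * ((j : ℝ) * (x ^ j / (j.factorial : ℝ))) + b ^ 2 * (x ^ j / (j.factorial : ℝ))) =
      fun j : ℕ => ((j : ℝ) - b) ^ 2 * (x ^ j / j.factorial) := by
    funext j
    ring
  rw [e3] at h3
  refine (sum_le_hasSum (Finset.range J) (fun j _ => by positivity) h3).trans (le_of_eq ?_)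
  ring

end

end Pool.Agent.Q38.UM
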