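import Pool.Agent.Q38.UM.COHb

set_option autoImplicit false

/-! Project UM16 (helper97), job COH, part 3: convolutions of the coherent state. -/

namespace Pool.Agent.Q38.UM

open Filter Topology Complex
open Pool.Agent.Q97.UM Pool.Agent.Q190.UM

noncomputable section

lemma cv_pc (X' : ℕ) (b : ℕ → ℂ) {n : ℕ} (hn : 1 ≤ n) :
    cv (pc X') b n = ∑ p ∈ (PX X').filter (fun p => p ∣ n), b (n / p) := by
  unfold cv
  rw [Nat.sum_divisorsAntidiagonal (f := fun a c => pc X' a * b c)]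
  have h1 : ∀ a ∈ n.divisors, pc X' a * b (n / a) = if a.Prime ∧ a ≤ X' then b (n / a) else 0 := by
    intro a _
    unfold pc
    split_ifs <;> simp
  rw [Finset.sum_congr rfl h1, ← Finset.sum_filter]
  refine Finset.sum_congr ?_ fun _ _ => rfl
  ext p
  simp only [Finset.mem_filter, Nat.mem_divisors, Finset.mem_Icc]
  constructor
  · rintro ⟨⟨h2, _⟩, h3, h4⟩
    exact ⟨⟨⟨h3.one_lt.le, h4⟩, h3⟩, h2⟩
  · rintro ⟨⟨⟨_, h4⟩, h3⟩, h2⟩
    exact ⟨⟨h2, by omega⟩, h3, h4⟩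

lemma cv_cq (X' : ℕ) (b : ℕ → ℂ) {n : ℕ} (hn : 1 ≤ n) :
    cv (cq X') b n = ∑ p ∈ (PX X').filter (fun p => p ^ 2 ∣ n), b (n / p ^ 2) := by
  classical
  unfold cv
  rw [Nat.sum_divisorsAntidiagonal (f := fun a c => cq X' a * b c)]
  have h1 : ∀ a ∈ n.divisors, cq X' a * b (n / a) =
      if ∃ p : ℕ, p.Prime ∧ p ≤ X' ∧ a = p ^ 2 then b (n / a) else 0 := by
    intro a _
    unfold cq
    split_ifs <;> simp
  rw [Finset.sum_congr rfl h1, ← Finset.sum_filter]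
  have h2 : n.divisors.filter (fun a => ∃ p : ℕ, p.Prime ∧ p ≤ X' ∧ a = p ^ 2) =
      ((PX X').filter (fun p => p ^ 2 ∣ n)).image (fun p => p ^ 2) := by
    ext a
    simp only [Finset.mem_filter, Nat.mem_divisors, Finset.mem_image, Finset.mem_Icc]
    constructor
    · rintro ⟨⟨h3, _⟩, p, h4, h5, rfl⟩
      exact ⟨p, ⟨⟨⟨h4.one_lt.le, h5⟩, h4⟩, h3⟩, rfl⟩
    · rintro ⟨p, ⟨⟨⟨_, h5⟩, h4⟩, h3⟩, rfl⟩
      exact ⟨⟨h3, by omega⟩, p, h4, h5, rfl⟩
  rw [h2, Finset.sum_image]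
  intro p _ q _ hpq
  exact Nat.pow_left_injective (n := 2) two_ne_zero hpq

/-- shift -/
def sh (c : ℕ → ℝ) : ℕ → ℝ
  | 0 => 0
  | (r + 1) => c r

/-- the coefficients of the coherent state -/
def ee (k : ℝ) (X K n : ℕ) : ℂ := ((LC (ec k) X (K + 1) n : ℝ) : ℂ)

lemma norm_ee (k : ℝ) (X K n : ℕ) : ‖ee k X K n‖ = EA k X K n := by
  unfold ee
  rw [Complex.norm_real, Real.norm_eq_abs, abs_LC]

lemma N2_ee (k : ℝ) (X K N : ℕ) : N2 N (ee k X K) = ∑ n ∈ Finset.Icc 1 N, EA k X K n ^ 2 / n := by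
  unfold N2
  exact Finset.sum_congr rfl fun n _ => by rw [norm_ee]

lemma cv_pc_LC (c : ℕ → ℝ) (X J : ℕ) {n : ℕ} (hn : 1 ≤ n) :
    cv (pc X) (fun m => ((LC c X J m : ℝ) : ℂ)) n = ((LC (sh c) X (J + 1) n : ℝ) : ℂ) := by
  rw [cv_pc X _ hn, ← Complex.ofReal_sum]
  congr 1
  unfold LC
  rw [Finset.sum_range_succ' _ J]
  simp only [sh, zero_mul, add_zero]
  rw [Finset.sum_comm]
  refine Finset.sum_congr rfl fun r _ => ?_
  rw [← Finset.mul_sum]
  simp only [ck]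
  push_cast
  rfl

/-- the coefficients of `(P - a) e` -/
def cc (k a : ℝ) (K r : ℕ) : ℝ := sh (ec k) r - a * (if r ≤ K then ec k r else 0)

lemma main1 (k a : ℝ) (X K : ℕ) {n : ℕ} (hn : 1 ≤ n) :
    cv (pc X) (ee k X K) n - (a : ℂ) * ee k X K n = ((LC (cc k a K) X (K + 2) n : ℝ) : ℂ) := by
  have h1 : cv (pc X) (ee k X K) n = ((LC (sh (ec k)) X (K + 2) n : ℝ) : ℂ) := cv_pc_LC (ec k) X (K + 1) hn
  rw [h1]
  unfold ee
  rw [← Complex.ofReal_mul, ← Complex.ofReal_sub]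
  congr 1
  unfold LC cc
  simp only [sub_mul, Finset.sum_sub_distrib]
  congr 1
  rw [Finset.sum_range_succ _ (K + 1), if_neg (by omega), mul_zero, zero_mul, add_zero, Finset.mul_sum]
  refine Finset.sum_congr rfl fun r hr => ?_
  rw [if_pos (Nat.lt_succ_iff.1 (Finset.mem_range.1 hr))]
  ring

lemma cc_bound {k a S : ℝ} (hk : k ≠ 0) (hS : 0 ≤ S) {K r : ℕ} (hb0 : 0 ≤ k * a) (hb : 2 * (k * a) ≤ K + 1)
    (hr : r ≤ K + 1) : cc k a K r ^ 2 * (r.factorial * S ^ r) ≤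
      4 / k ^ 2 * (((r : ℝ) - k * a) ^ 2 * ((k ^ 2 * S) ^ r / r.factorial)) := by
  have hk2 : 0 < k ^ 2 := by positivity
  have key : ∀ y : ℝ, cc k a K r = ec k r * y / k → y ^ 2 ≤ 4 * ((r : ℝ) - k * a) ^ 2 →
      cc k a K r ^ 2 * (r.factorial * S ^ r) ≤
      4 / k ^ 2 * (((r : ℝ) - k * a) ^ 2 * ((k ^ 2 * S) ^ r / r.factorial)) := by
    intro y h1 h2
    rw [h1]
    unfold ec
    have hf : (r.factorial : ℝ) ≠ 0 := by positivity
    have e1 : (k ^ r / (r.factorial : ℝ) * y / k) ^ 2 * (r.factorial * S ^ r) =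
        1 / k ^ 2 * (y ^ 2 * ((k ^ 2 * S) ^ r / r.factorial)) := by
      rw [mul_pow, ← pow_mul, mul_comm 2 r, pow_mul]
      field_simp
    have e2 : 4 / k ^ 2 * (((r : ℝ) - k * a) ^ 2 * ((k ^ 2 * S) ^ r / r.factorial)) =
        1 / k ^ 2 * ((4 * ((r : ℝ) - k * a) ^ 2) * ((k ^ 2 * S) ^ r / r.factorial)) := by ring
    rw [e1, e2]
    gcongr
  rcases r with _ | s
  · refine key (-(k * a)) ?_ ?_
    · simp only [cc, sh, ec]
      rw [if_pos (Nat.zero_le _)]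
      field_simp
      simp
    · push_cast
      nlinarith [sq_nonneg (k * a)]
  · have hs : ec k (s + 1) * ((s : ℝ) + 1) / k = ec k s := by
      unfold ec
      rw [Nat.factorial_succ]
      push_cast
      have : (s.factorial : ℝ) ≠ 0 := by positivity
      field_simp
      ring
    rcases Nat.lt_or_ge K (s + 1) with h1 | h1
    · have h2 : s + 1 = K + 1 := by omega
      refine key ((s : ℝ) + 1) ?_ ?_
      · simp only [cc, sh]
        rw [if_neg (by omega), mul_zero, sub_zero, hs]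
      · have h3 : (K : ℝ) = s := by
          have : K = s := by omega
          rw [this]
        rw [h3] at hb
        push_cast
        nlinarith
    · refine key (((s + 1 : ℕ) : ℝ) - k * a) ?_ ?_
      · simp only [cc, sh]
        rw [if_pos h1, ← hs]
        push_cast
        field_simp
      · nlinarith [sq_nonneg (((s + 1 : ℕ) : ℝ) - k * a)]

/-- first estimate, main part -/
lemma est1 {k a : ℝ} (hk : k ≠ 0) (X K M : ℕ) (hb0 : 0 ≤ k * a) (hb : 2 * (k * a) ≤ K + 1) :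
    ∑ n ∈ Finset.Icc 1 M, LC (cc k a K) X (K + 2) n ^ 2 / n ≤
      4 / k ^ 2 * (Real.exp (k ^ 2 * SX X) * (k ^ 2 * SX X + (k ^ 2 * SX X - k * a) ^ 2)) := by
  have hS := SX_nonneg X
  refine (N2_LC_le _ X (K + 2) M).trans ?_
  refine le_trans ?_ (mul_le_mul_of_nonneg_left
    (pois (k ^ 2 * SX X) (k * a) (by positivity) (K + 2)) (by positivity))
  rw [Finset.mul_sum]
  exact Finset.sum_le_sum fun r hr => cc_bound hk hS hb0 hb (Nat.lt_succ_iff.1 (Finset.mem_range.1 hr))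

/-- a sum of squares with at most one term -/
lemma sq_sum_single {ι : Type} (s : Finset ι) (f : ι → ℝ)
    (h : ∀ i ∈ s, ∀ j ∈ s, f i ≠ 0 → f j ≠ 0 → i = j) : (∑ i ∈ s, f i) ^ 2 = ∑ i ∈ s, f i ^ 2 := by
  classical
  by_cases h1 : ∃ i ∈ s, f i ≠ 0
  · obtain ⟨i, hi, hne⟩ := h1
    have h2 : ∀ j ∈ s, j ≠ i → f j = 0 := by
      intro j hj hji
      by_contra hne'
      exact hji (h j hj i hi hne' hne)
    rw [Finset.sum_eq_single_of_mem i hi h2,
      Finset.sum_eq_single_of_mem i hi fun j hj hji => by rw [h2 j hj hji]; simp]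
  · push Not at h1
    rw [Finset.sum_eq_zero h1, Finset.sum_eq_zero fun i hi => by rw [h1 i hi]; simp]
    simp

/-- the large primes -/
lemma est2 (k : ℝ) {X K X' M : ℕ} (hX : 1 ≤ X) :
    ∑ n ∈ Finset.Icc 1 M, (∑ p ∈ (PX X' \ PX X).filter (fun p => p ∣ n), EA k X K (n / p)) ^ 2 / n ≤
      SX X' * ∑ m ∈ Finset.Icc 1 (X ^ K), EA k X K m ^ 2 / m := by
  have h1 : ∀ n ∈ Finset.Icc 1 M,
      (∑ p ∈ (PX X' \ PX X).filter (fun p => p ∣ n), EA k X K (n / p)) ^ 2 / (n : ℝ) =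
      (∑ p ∈ (PX X' \ PX X).filter (fun p => p ∣ n), EA k X K (n / p) ^ 2) / n := by
    intro n _
    rw [sq_sum_single]
    intro p hp q hq hp0 hq0
    by_contra hne
    rw [Finset.mem_filter, Finset.mem_sdiff, Finset.mem_filter, Finset.mem_filter] at hp hq
    have hpn : n = p * (n / p) := (Nat.mul_div_cancel' hp.2).symm
    have h2 : q ∣ p * (n / p) := hpn ▸ hq.2
    have h3 : q ∣ n / p := by
      rcases (Nat.Prime.dvd_mul hq.1.1.2).1 h2 with h4 | h4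
      · exact absurd ((Nat.prime_dvd_prime_iff_eq hq.1.1.2 hp.1.1.2).1 h4).symm hne
      · exact h4
    have h5 := (EA_supp hX hp0).2.2 q hq.1.1.2 h3
    exact hq.1.2 ⟨Finset.mem_Icc.2 ⟨hq.1.1.2.one_lt.le, h5⟩, hq.1.1.2⟩
  rw [Finset.sum_congr rfl h1]
  refine (conv1 (PX X' \ PX X) (fun p => p) (fun p hp => ?_) (fun _ m => EA k X K m ^ 2)
    (fun _ _ => sq_nonneg _) (X ^ K) M (fun _ m hm => ?_)).trans ?_
  · have := (Finset.mem_filter.1 (Finset.mem_sdiff.1 hp).1).2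
    exact this.one_lt.le
  · have h2 : EA k X K m ≠ 0 := fun h => hm (by rw [h]; simp)
    exact ⟨(EA_supp hX h2).1, (EA_supp hX h2).2.1⟩
  · rw [← Finset.sum_mul]
    refine mul_le_mul_of_nonneg_right ?_ (Finset.sum_nonneg fun _ _ => by positivity)
    unfold SX
    exact Finset.sum_le_sum_of_subset_of_nonneg Finset.sdiff_subset fun _ _ _ => by positivity

/-- the squares of the primes -/
lemma est3 (k : ℝ) {X K X' M : ℕ} (hX : 1 ≤ X) :
    ∑ n ∈ Finset.Icc 1 M, (∑ p ∈ (PX X').filter (fun p => p ^ 2 ∣ n), EA k X K (n / p ^ 2)) ^ 2 / n ≤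
      (2 + 4 * k ^ 4) * ∑ m ∈ Finset.Icc 1 (X ^ K), EA k X K m ^ 2 / m := by
  classical
  set L := ∑ m ∈ Finset.Icc 1 (X ^ K), EA k X K m ^ 2 / (m : ℝ) with hL
  have hL0 : 0 ≤ L := Finset.sum_nonneg fun _ _ => by positivity
  have hpt : ∀ n ∈ Finset.Icc 1 M,
      (∑ p ∈ (PX X').filter (fun p => p ^ 2 ∣ n), EA k X K (n / p ^ 2)) ^ 2 / (n : ℝ) ≤
      (∑ p ∈ (PX X').filter (fun p => p ^ 2 ∣ n), EA k X K (n / p ^ 2) ^ 2) / n +
      (∑ i ∈ (PX X' ×ˢ PX X').filter (fun i => (i.1 ^ 2 * i.2 ^ 2) ∣ n),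
        k ^ 4 * EA k X K (n / (i.1 ^ 2 * i.2 ^ 2)) ^ 2) / n := by
    intro n hn
    rw [← add_div]
    refine div_le_div_of_nonneg_right ?_ (by positivity)
    rw [pow_two, Finset.sum_mul_sum]
    set A := (PX X').filter (fun p => p ^ 2 ∣ n) with hA
    rw [← Finset.sum_product']
    rw [← Finset.sum_filter_add_sum_filter_not (A ×ˢ A) (fun i => i.1 = i.2)]
    refine add_le_add (le_of_eq ?_) ?_
    · have h2 : (A ×ˢ A).filter (fun i => i.1 = i.2) = A.image (fun p => (p, p)) := by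
        ext ⟨p, q⟩
        simp only [Finset.mem_filter, Finset.mem_product, Finset.mem_image, Prod.mk.injEq]
        constructor
        · rintro ⟨⟨h3, _⟩, h4⟩
          exact ⟨p, h3, rfl, h4⟩
        · rintro ⟨r, h3, rfl, rfl⟩
          exact ⟨⟨h3, h3⟩, rfl⟩
      rw [h2, Finset.sum_image]
      · exact Finset.sum_congr rfl fun p _ => by ring
      · intro p _ q _ hpq
        exact (Prod.mk.inj hpq).1
    · refine (Finset.sum_le_sum (g := fun i : ℕ × ℕ => k ^ 4 * EA k X K (n / (i.1 ^ 2 * i.2 ^ 2)) ^ 2) ?_).trans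
        (Finset.sum_le_sum_of_subset_of_nonneg ?_ fun _ _ _ => by positivity)
      · rintro ⟨p, q⟩ hi
        rw [Finset.mem_filter, Finset.mem_product] at hi
        obtain ⟨⟨hpA, hqA⟩, hpq⟩ := hi
        obtain ⟨hp', hpn⟩ := Finset.mem_filter.1 hpA
        obtain ⟨hq', hqn⟩ := Finset.mem_filter.1 hqA
        have hp : p.Prime := (Finset.mem_filter.1 hp').2
        have hq : q.Prime := (Finset.mem_filter.1 hq').2
        simp only at hpn hqn hpq
        have hcop : Nat.Coprime (p ^ 2) (q ^ 2) :=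
          Nat.Coprime.pow 2 2 ((Nat.coprime_primes hp hq).2 hpq)
        obtain ⟨l, hl⟩ := hcop.mul_dvd_of_dvd_of_dvd hpn hqn
        have hp2 : 0 < p ^ 2 := pow_pos hp.pos 2
        have hq2 : 0 < q ^ 2 := pow_pos hq.pos 2
        have e1 : n / p ^ 2 = q ^ 2 * l := by
          rw [hl, mul_assoc, Nat.mul_div_cancel_left _ hp2]
        have e2 : n / q ^ 2 = p ^ 2 * l := by
          rw [hl, mul_comm (p ^ 2), mul_assoc, Nat.mul_div_cancel_left _ hq2]
        have e3 : n / (p ^ 2 * q ^ 2) = l := by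
          rw [hl, Nat.mul_div_cancel_left _ (Nat.mul_pos hp2 hq2)]
        simp only
        rw [e1, e2, e3]
        have i1 := EA_sq_mul_le k X K hq l
        have i2 := EA_sq_mul_le k X K hp l
        have i3 := EA_nonneg k X K (p ^ 2 * l)
        have i4 := EA_nonneg k X K l
        calc EA k X K (q ^ 2 * l) * EA k X K (p ^ 2 * l) ≤
            (k ^ 2 * EA k X K l) * (k ^ 2 * EA k X K l) := mul_le_mul i1 i2 i3 (by positivity)
          _ = _ := by ring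
      · rintro ⟨p, q⟩ hi
        rw [Finset.mem_filter, Finset.mem_product] at hi
        rw [Finset.mem_filter, Finset.mem_product]
        obtain ⟨⟨hpA, hqA⟩, hpq⟩ := hi
        obtain ⟨hp, hpn⟩ := Finset.mem_filter.1 hpA
        obtain ⟨hq, hqn⟩ := Finset.mem_filter.1 hqA
        refine ⟨⟨hp, hq⟩, ?_⟩
        have hp' := (Finset.mem_filter.1 hp).2
        have hq' := (Finset.mem_filter.1 hq).2
        exact (Nat.Coprime.pow 2 2 ((Nat.coprime_primes hp' hq').2 hpq)).mul_dvd_of_dvd_of_dvd hpn hqn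
  refine (Finset.sum_le_sum hpt).trans ?_
  rw [Finset.sum_add_distrib]
  have hsupp : ∀ m, EA k X K m ^ 2 ≠ 0 → 1 ≤ m ∧ m ≤ X ^ K := by
    intro m hm
    have h2 : EA k X K m ≠ 0 := fun h => hm (by rw [h]; simp)
    exact ⟨(EA_supp hX h2).1, (EA_supp hX h2).2.1⟩
  have b1 : ∑ n ∈ Finset.Icc 1 M, (∑ p ∈ (PX X').filter (fun p => p ^ 2 ∣ n), EA k X K (n / p ^ 2) ^ 2) / (n : ℝ) ≤
      2 * L := by
    refine (conv1 (PX X') (fun p => p ^ 2) (fun p hp => ?_) (fun _ m => EA k X K m ^ 2)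
      (fun _ _ => sq_nonneg _) (X ^ K) M (fun _ m hm => hsupp m hm)).trans ?_
    · exact Nat.one_le_iff_ne_zero.2 (pow_ne_zero 2 (Finset.mem_filter.1 hp).2.ne_zero)
    · rw [← Finset.sum_mul]
      refine mul_le_mul_of_nonneg_right (le_trans (le_of_eq ?_) (PP2_le X')) hL0
      unfold PP2
      exact Finset.sum_congr rfl fun p _ => by push_cast; rfl
  have b2 : ∑ n ∈ Finset.Icc 1 M, (∑ i ∈ (PX X' ×ˢ PX X').filter (fun i => (i.1 ^ 2 * i.2 ^ 2) ∣ n),
        k ^ 4 * EA k X K (n / (i.1 ^ 2 * i.2 ^ 2)) ^ 2) / (n : ℝ) ≤ 4 * k ^ 4 * L := by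
    refine (conv1 (PX X' ×ˢ PX X') (fun i => i.1 ^ 2 * i.2 ^ 2) (fun i hi => ?_)
      (fun _ m => k ^ 4 * EA k X K m ^ 2)
      (fun _ _ => by positivity) (X ^ K) M (fun _ m hm => hsupp m (right_ne_zero_of_mul hm))).trans ?_
    · rw [Finset.mem_product] at hi
      exact Nat.one_le_iff_ne_zero.2 (mul_ne_zero (pow_ne_zero 2 (Finset.mem_filter.1 hi.1).2.ne_zero)
        (pow_ne_zero 2 (Finset.mem_filter.1 hi.2).2.ne_zero))
    · rw [← Finset.sum_mul]
      have e1 : ∑ m ∈ Finset.Icc 1 (X ^ K), k ^ 4 * EA k X K m ^ 2 / (m : ℝ) = k ^ 4 * L := by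
        rw [hL, Finset.mul_sum]
        exact Finset.sum_congr rfl fun _ _ => by ring
      have e2 : ∑ i ∈ PX X' ×ˢ PX X', 1 / ((i.1 ^ 2 * i.2 ^ 2 : ℕ) : ℝ) = PP2 X' * PP2 X' := by
        unfold PP2
        rw [Finset.sum_mul_sum, ← Finset.sum_product']
        refine Finset.sum_congr rfl fun i _ => ?_
        push_cast
        rw [div_mul_div_comm, one_mul]
      rw [e1, e2]
      have h3 := PP2_le X'
      have h4 := PP2_nonneg X'
      have h5 : PP2 X' * PP2 X' ≤ 4 := by nlinarith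
      calc PP2 X' * PP2 X' * (k ^ 4 * L) ≤ 4 * (k ^ 4 * L) := mul_le_mul_of_nonneg_right h5 (by positivity)
        _ = _ := by ring
  calc _ ≤ 2 * L + 4 * k ^ 4 * L := add_le_add b1 b2
    _ = _ := by ring

/-- second estimate -/
lemma N2_sq (k : ℝ) {X K X' M : ℕ} (hX : 1 ≤ X) :
    N2 M (cv (cq X') (ee k X K)) ≤ (2 + 4 * k ^ 4) * N2 (X ^ K) (ee k X K) := by
  rw [N2_ee]
  refine le_trans ?_ (est3 k (X' := X') (M := M) hX)
  unfold N2
  refine Finset.sum_le_sum fun n hn => ?_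
  refine div_le_div_of_nonneg_right ?_ (by positivity)
  rw [cv_cq X' _ (Finset.mem_Icc.1 hn).1]
  refine pow_le_pow_left₀ (norm_nonneg _) ((norm_sum_le _ _).trans (le_of_eq ?_)) 2
  exact Finset.sum_congr rfl fun p _ => norm_ee _ _ _ _

/-- first estimate -/
lemma N2_main {k a : ℝ} (hk : k ≠ 0) {X K X' M : ℕ} (hX : 1 ≤ X) (hXX : X ≤ X') (hb0 : 0 ≤ k * a)
    (hb : 2 * (k * a) ≤ K + 1) :
    N2 M (fun n => cv (pc X') (ee k X K) n - (a : ℂ) * ee k X K n) ≤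
      2 * (4 / k ^ 2 * (Real.exp (k ^ 2 * SX X) * (k ^ 2 * SX X + (k ^ 2 * SX X - k * a) ^ 2))) +
      2 * (SX X' * N2 (X ^ K) (ee k X K)) := by
  rw [N2_ee]
  have h1 := est1 hk X K M hb0 hb
  have h2 := est2 k (X := X) (K := K) (X' := X') (M := M) hX
  refine le_trans ?_ (add_le_add (mul_le_mul_of_nonneg_left h1 zero_le_two)
    (mul_le_mul_of_nonneg_left h2 zero_le_two))
  unfold N2
  rw [Finset.mul_sum, Finset.mul_sum, ← Finset.sum_add_distrib]
  refine Finset.sum_le_sum fun n hn => ?_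
  have hn1 := (Finset.mem_Icc.1 hn).1
  have hsub : (PX X).filter (fun p => p ∣ n) ⊆ (PX X').filter (fun p => p ∣ n) := by
    intro p hp
    simp only [Finset.mem_filter, Finset.mem_Icc] at hp ⊢
    exact ⟨⟨⟨hp.1.1.1, hp.1.1.2.trans hXX⟩, hp.1.2⟩, hp.2⟩
  have e1 : cv (pc X') (ee k X K) n = cv (pc X) (ee k X K) n +
      ∑ p ∈ (PX X' \ PX X).filter (fun p => p ∣ n), ee k X K (n / p) := by
    rw [cv_pc X' _ hn1, cv_pc X _ hn1, ← Finset.sum_sdiff hsub, add_comm]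
    congr 1
    refine Finset.sum_congr ?_ fun _ _ => rfl
    ext p
    simp only [Finset.mem_filter, Finset.mem_sdiff, Finset.mem_Icc]
    tauto
  have e2 : cv (pc X') (ee k X K) n - (a : ℂ) * ee k X K n = ((LC (cc k a K) X (K + 2) n : ℝ) : ℂ) +
      ∑ p ∈ (PX X' \ PX X).filter (fun p => p ∣ n), ee k X K (n / p) := by
    rw [← main1 k a X K hn1, e1]
    ring
  simp only [e2]
  set u := LC (cc k a K) X (K + 2) n
  set v := ∑ p ∈ (PX X' \ PX X).filter (fun p => p ∣ n), ee k X K (n / p)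
  set w := ∑ p ∈ (PX X' \ PX X).filter (fun p => p ∣ n), EA k X K (n / p) with hw
  have hv : ‖v‖ ≤ w := by
    refine (norm_sum_le _ _).trans (le_of_eq ?_)
    exact Finset.sum_congr rfl fun p _ => norm_ee _ _ _ _
  have h3 : ‖(u : ℂ) + v‖ ≤ |u| + w := by
    refine (norm_add_le _ _).trans (add_le_add (le_of_eq ?_) hv)
    rw [Complex.norm_real, Real.norm_eq_abs]
  have h4 : ‖(u : ℂ) + v‖ ^ 2 ≤ 2 * u ^ 2 + 2 * w ^ 2 := by
    calc ‖(u : ℂ) + v‖ ^ 2 ≤ (|u| + w) ^ 2 := pow_le_pow_left₀ (norm_nonneg _) h3 2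
      _ ≤ 2 * |u| ^ 2 + 2 * w ^ 2 := by nlinarith [sq_nonneg (|u| - w)]
      _ = _ := by rw [sq_abs]
  calc ‖(u : ℂ) + v‖ ^ 2 / (n : ℝ) ≤ (2 * u ^ 2 + 2 * w ^ 2) / n :=
        div_le_div_of_nonneg_right h4 (by positivity)
    _ = _ := by ring

end

end Pool.Agent.Q38.UM
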