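import Pool.Agent.Q97.UM.Stm21
import Pool.Agent.Q190.UM.PWK

set_option autoImplicit false

/-! Project UM15 (helper97), job PWKA: powers of prime sums with bounded coefficients
(an adaptation of helper190's file Q190/UM/PWK.lean). -/

namespace Pool.Agent.Q38.UM

open Filter Topology Complex
open Pool.Agent.Q97.UM Pool.Agent.Q190.UM

noncomputable section

/-- the completely multiplicative extension of `α` -/
def Fa (α : ℕ → ℂ) (n : ℕ) : ℂ := (n.primeFactorsList.map α).prod

lemma Fa_one (α : ℕ → ℂ) : Fa α 1 = 1 := by simp [Fa]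

lemma Fa_mul (α : ℕ → ℂ) {p m : ℕ} (hp : p.Prime) (hm : m ≠ 0) : Fa α (p * m) = α p * Fa α m := by
  unfold Fa
  have h := (Nat.perm_primeFactorsList_mul hp.ne_zero hm).map α
  rw [h.prod_eq, Nat.primeFactorsList_prime hp]
  simp

lemma Fa_le (α : ℕ → ℂ) {A : ℝ} (hA : 0 ≤ A) (h : ∀ n, ‖α n‖ ≤ A) (n : ℕ) :
    ‖Fa α n‖ ≤ A ^ n.primeFactorsList.length := by
  unfold Fa
  induction n.primeFactorsList with
  | nil => simp
  | cons a l ih =>
    rw [List.map_cons, List.prod_cons, norm_mul, List.length_cons, pow_succ']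
    exact mul_le_mul (h a) ih (norm_nonneg _) hA

lemma pka_eq (α : ℕ → ℂ) (X k n : ℕ) : pka α X k n = (ck X k n : ℂ) * Fa α n := by
  induction k generalizing n with
  | zero =>
    simp only [pka, ck]
    split_ifs with h
    · subst h; simp [Fa_one]
    · simp
  | succ k ih =>
    rcases Nat.eq_zero_or_pos n with hn | hn
    · subst hn
      rw [ck_zero]
      simp [pka, cv]
    · simp only [pka, ck, cv]
      rw [Nat.sum_divisorsAntidiagonal (f := fun a b => pca α X a * pka α X k b)]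
      push_cast
      rw [Finset.sum_mul]
      have h1 : ∀ a ∈ n.divisors, pca α X a * pka α X k (n / a) =
          if a.Prime ∧ a ≤ X then (ck X k (n / a) : ℂ) * Fa α n else 0 := by
        intro a ha
        rw [Nat.mem_divisors] at ha
        unfold pca
        rw [ih]
        split_ifs with h2
        · have hm : n = a * (n / a) := (Nat.mul_div_cancel' ha.1).symm
          have hm0 : n / a ≠ 0 := by
            intro h
            rw [h, mul_zero] at hm
            exact hn.ne' hm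
          have h3 : Fa α n = α a * Fa α (n / a) := by
            conv_lhs => rw [hm]
            exact Fa_mul α h2.1 hm0
          rw [h3]
          ring
        · simp
      rw [Finset.sum_congr rfl h1, ← Finset.sum_filter]
      refine Finset.sum_congr ?_ fun _ _ => rfl
      ext p
      simp only [Finset.mem_filter, Nat.mem_divisors, Finset.mem_Icc]
      constructor
      · rintro ⟨⟨h2, _⟩, h3, h4⟩
        exact ⟨⟨⟨h3.one_lt.le, h4⟩, h3⟩, h2⟩
      · rintro ⟨⟨⟨_, h4⟩, h3⟩, h2⟩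
        exact ⟨⟨h2, hn.ne'⟩, h3, h4⟩

lemma EE_congr {X k : ℕ} {g h : ℕ → ℝ} (H : ∀ n, ck X k n ≠ 0 → g n = h n) : EE X k g = EE X k h :=
  le_antisymm (EE_mono fun n hn => (H n hn).le) (EE_mono fun n hn => (H n hn).ge)

/-- the sum `∑_{p ≤ X} |α_p|²/p` -/
def SA (α : ℕ → ℂ) (X : ℕ) : ℝ := ∑ p ∈ PX X, ‖α p‖ ^ 2 / (p : ℝ)

lemma SA_eq (α : ℕ → ℂ) (X : ℕ) : N2 X (pca α X) = SA α X := by
  unfold N2 SA PX
  rw [Finset.sum_filter]
  refine Finset.sum_congr rfl fun n hn => ?_
  rw [Finset.mem_Icc] at hn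
  unfold pca
  by_cases h : n.Prime
  · rw [if_pos ⟨h, hn.2⟩, if_pos h]
  · rw [if_neg fun h' => h h'.1, if_neg h]
    simp

lemma EE_W (α : ℕ → ℂ) (X k : ℕ) : EE X k (fun n => ‖Fa α n‖ ^ 2) = SA α X ^ k := by
  induction k with
  | zero => simp [EE, Fa_one]
  | succ k ih =>
    simp only [EE]
    have h1 : ∀ p ∈ PX X, 1 / (p : ℝ) * EE X k (fun m => ‖Fa α (p * m)‖ ^ 2) =
        ‖α p‖ ^ 2 / (p : ℝ) * SA α X ^ k := by
      intro p hp
      have hpp : p.Prime := (Finset.mem_filter.1 hp).2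
      have h2 : EE X k (fun m => ‖Fa α (p * m)‖ ^ 2) = EE X k (fun m => ‖α p‖ ^ 2 * ‖Fa α m‖ ^ 2) := by
        refine EE_congr fun n hn => ?_
        obtain ⟨i1, _⟩ := ck_supp hn
        rw [Fa_mul α hpp (by omega), norm_mul, mul_pow]
      rw [h2, EE_smul, ih]
      ring
    rw [Finset.sum_congr rfl h1, ← Finset.sum_mul, pow_succ, mul_comm]
    rfl

lemma N2_eqA (α : ℕ → ℂ) (X k : ℕ) :
    N2 (X ^ k) (pka α X k) = EE X k (fun n => (ck X k n : ℝ) * ‖Fa α n‖ ^ 2) := by
  rw [← sum_ck]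
  unfold N2
  refine Finset.sum_congr rfl fun n _ => ?_
  rw [pka_eq, norm_mul, Complex.norm_natCast]
  ring

lemma N2_upA (α : ℕ → ℂ) (X k : ℕ) : N2 (X ^ k) (pka α X k) ≤ k.factorial * SA α X ^ k := by
  rw [N2_eqA, ← EE_W, ← EE_smul]
  refine EE_mono fun n _ => ?_
  refine mul_le_mul_of_nonneg_right ?_ (by positivity)
  exact_mod_cast ck_le

open Classical in
lemma N2_loA (α : ℕ → ℂ) {A : ℝ} (hA : 0 ≤ A) (h : ∀ n, ‖α n‖ ≤ A) (X k : ℕ) :
    k.factorial * (SA α X ^ k - A ^ (2 * k) * EE X k (fun m => if Squarefree m then 0 else 1)) ≤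
    N2 (X ^ k) (pka α X k) := by
  have h1 : SA α X ^ k ≤ EE X k (fun m => if Squarefree m then ‖Fa α m‖ ^ 2 else 0) +
      A ^ (2 * k) * EE X k (fun m => if Squarefree m then 0 else 1) := by
    rw [← EE_W, ← EE_smul, ← EE_add]
    refine EE_mono fun n hn => ?_
    obtain ⟨_, _, i3, _⟩ := ck_supp hn
    split_ifs with h2
    · simp
    · have h3 := Fa_le α hA h n
      rw [i3] at h3
      have h4 : ‖Fa α n‖ ^ 2 ≤ (A ^ k) ^ 2 := pow_le_pow_left₀ (norm_nonneg _) h3 2
      rw [← pow_mul, mul_comm k 2] at h4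
      linarith
  have h5 : (k.factorial : ℝ) * EE X k (fun m => if Squarefree m then ‖Fa α m‖ ^ 2 else 0) ≤
      N2 (X ^ k) (pka α X k) := by
    rw [N2_eqA, ← EE_smul]
    refine EE_mono fun n hn => ?_
    obtain ⟨_, _, i3, i4⟩ := ck_supp hn
    split_ifs with h2
    · rw [ck_sqf h2 i3 i4]
    · rw [mul_zero]
      positivity
  have h6 : (0 : ℝ) ≤ k.factorial := by positivity
  have h7 := mul_le_mul_of_nonneg_left h1 h6
  rw [mul_add] at h7
  rw [mul_sub]
  linarith

/-- Job `PWKA`. -/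
theorem t_PWKA : J_PWKA := by
  classical
  intro hD
  refine ⟨fun α k X t => ?_, fun α k X n hn => ?_, fun k A hA => ?_⟩
  · induction k with
    | zero => simp [dp, pka]
    | succ k ih =>
      rw [pow_succ' (dp X (pca α X) t), ← ih, hD.1 X (X ^ k) (pca α X) (pka α X k) t ?_ ?_, pow_succ']
      · rfl
      · intro n hn
        unfold pca
        rw [if_neg fun h => absurd h.2 (not_le.2 hn)]
      · intro n hn
        by_contra hne
        rw [pka_eq] at hne
        have h1 := ck_supp (fun h0 => hne (by rw [h0]; simp))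
        exact absurd h1.2.1 (not_le.2 hn)
  · rw [pka_eq] at hn
    obtain ⟨i1, i2, i3, _⟩ := ck_supp (fun h0 => hn (by rw [h0]; simp))
    exact ⟨i1, i2, i3⟩
  · refine ⟨k.factorial * (A ^ (2 * k) * (k ^ 2 * 2 * 2 ^ (k - 1))), by positivity, ?_⟩
    obtain ⟨h1, hS⟩ := SX_asymp
    have hll : Tendsto (fun X : ℕ => Real.log (Real.log X)) atTop atTop :=
      Real.tendsto_log_atTop.comp (Real.tendsto_log_atTop.comp tendsto_natCast_atTop_atTop)
    filter_upwards [hS.eventually_ge_atTop 1, h1.eventually_lt_const (show (1 : ℝ) < 2 by norm_num),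
      hll.eventually_gt_atTop 0] with X hX1 hX2 hl α hα
    have hX3 : SX X ≤ 2 * Real.log (Real.log X) := by
      rw [div_lt_iff₀ hl] at hX2
      exact hX2.le
    have hE0 : 0 ≤ EE X k (fun m => if Squarefree m then 0 else 1) := by
      refine EE_nonneg fun n => ?_
      split_ifs <;> norm_num
    have hE : EE X k (fun m => if Squarefree m then 0 else 1) ≤ k ^ 2 * 2 * SX X ^ (k - 1) := by
      have h6 := EE_nsq X k
      have h7 : k ^ 2 * PP2 X * SX X ^ k ≤ k ^ 2 * 2 * SX X ^ k := by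
        have := PP2_le X
        gcongr
      have h8 : SX X ^ k ≤ SX X ^ 2 * SX X ^ (k - 1) := by
        rw [← pow_add]
        exact pow_le_pow_right₀ hX1 (by omega)
      have h9 : k ^ 2 * 2 * SX X ^ k ≤ SX X ^ 2 * (k ^ 2 * 2 * SX X ^ (k - 1)) := by
        calc k ^ 2 * 2 * SX X ^ k ≤ k ^ 2 * 2 * (SX X ^ 2 * SX X ^ (k - 1)) := by gcongr
          _ = _ := by ring
      have h10 : 0 < SX X ^ 2 := by positivity
      exact le_of_mul_le_mul_left (h6.trans (h7.trans h9)) h10
    have hE2 : EE X k (fun m => if Squarefree m then 0 else 1) ≤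
        k ^ 2 * 2 * (2 ^ (k - 1) * Real.log (Real.log X) ^ (k - 1)) := by
      refine hE.trans ?_
      rw [← mul_pow]
      gcongr
    have hup := N2_upA α X k
    have hlo := N2_loA α hA hα X k
    rw [SA_eq, abs_le]
    have h6 : (0 : ℝ) ≤ k.factorial := by positivity
    have h7 : (0 : ℝ) ≤ A ^ (2 * k) := by positivity
    have h8 := mul_le_mul_of_nonneg_left (mul_le_mul_of_nonneg_left hE2 h7) h6
    have h9 : (k.factorial : ℝ) * (A ^ (2 * k) * (k ^ 2 * 2 * (2 ^ (k - 1) * Real.log (Real.log X) ^ (k - 1)))) =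
        k.factorial * (A ^ (2 * k) * (k ^ 2 * 2 * 2 ^ (k - 1))) * Real.log (Real.log X) ^ (k - 1) := by ring
    rw [h9] at h8
    rw [mul_sub] at hlo
    have h10 : (0 : ℝ) ≤ k.factorial * (A ^ (2 * k) * (k ^ 2 * 2 * 2 ^ (k - 1))) * Real.log (Real.log X) ^ (k - 1) := by
      positivity
    constructor
    · linarith
    · linarith

end

end Pool.Agent.Q38.UM
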